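import Pool.Agent.H500R2.PR.Defs
set_option autoImplicit false
open scoped InnerProductSpace
namespace Pool.Agent.H500R2.PR

section
variable {H : Type} [NormedAddCommGroup H] [InnerProductSpace ℂ H]

theorem ev_add (ψ : H) (S T : H →L[ℂ] H) : ev ψ (S + T) = ev ψ S + ev ψ T := by
  simp [ev, inner_add_right]

theorem ev_zero (ψ : H) : ev ψ (0 : H →L[ℂ] H) = 0 := by simp [ev]

theorem ev_smul (ψ : H) (r : ℝ) (T : H →L[ℂ] H) : ev ψ ((r : ℂ) • T) = r * ev ψ T := by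
  simp [ev, inner_smul_right]

theorem ev_sum {ι : Type} (s : Finset ι) (ψ : H) (T : ι → (H →L[ℂ] H)) :
    ev ψ (∑ i ∈ s, T i) = ∑ i ∈ s, ev ψ (T i) := by
  classical
  induction s using Finset.induction_on with
  | empty => simp [ev_zero]
  | insert i s hi ih => rw [Finset.sum_insert hi, Finset.sum_insert hi, ev_add, ih]

theorem ev_sub (ψ : H) (S T : H →L[ℂ] H) : ev ψ (S - T) = ev ψ S - ev ψ T := by
  simp [ev, inner_sub_right]

theorem ev_one (ψ : H) : ev ψ (1 : H →L[ℂ] H) = ‖ψ‖ ^ 2 := by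
  simp only [ev, ContinuousLinearMap.one_apply]
  rw [← inner_self_eq_norm_sq (𝕜 := ℂ)]; rfl

theorem ev_abs_le (ψ : H) (T : H →L[ℂ] H) : |ev ψ T| ≤ ‖ψ‖ * ‖T ψ‖ :=
  (Complex.abs_re_le_norm _).trans (norm_inner_le_norm _ _)

end

section
variable {H : Type} [NormedAddCommGroup H] [InnerProductSpace ℂ H] [CompleteSpace H]

theorem ev_nonneg (ψ : H) (T : H →L[ℂ] H) (h : 0 ≤ T) : 0 ≤ ev ψ T := by
  have := (ContinuousLinearMap.nonneg_iff_isPositive T).1 h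
  have h2 := this.re_inner_nonneg_right ψ
  simpa [ev] using h2

theorem ev_mono (ψ : H) (S T : H →L[ℂ] H) (h : S ≤ T) : ev ψ S ≤ ev ψ T := by
  have := ev_nonneg ψ (T - S) (sub_nonneg.2 h)
  rw [ev_sub] at this; linarith

/-- the product of two commuting nonnegative operators is nonnegative -/
theorem mul_nonneg_of_commute (S T : H →L[ℂ] H) (hS : 0 ≤ S) (hT : 0 ≤ T) (h : Commute S T) :
    0 ≤ S * T := h.mul_nonneg hS hT

theorem ev_mul_nonneg (ψ : H) (S T : H →L[ℂ] H) (hS : 0 ≤ S) (hT : 0 ≤ T) (h : Commute S T) :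
    0 ≤ ev ψ (S * T) := ev_nonneg ψ _ (mul_nonneg_of_commute S T hS hT h)

theorem isSelfAdjoint_of_nonneg' (T : H →L[ℂ] H) (h : 0 ≤ T) : IsSelfAdjoint T :=
  IsSelfAdjoint.of_nonneg h

/-- `0 ≤ T ≤ c` implies `‖T ψ‖ ≤ c ‖ψ‖` -/
theorem norm_apply_le (T : H →L[ℂ] H) (c : ℝ) (hc : 0 ≤ c) (h : 0 ≤ T) (h2 : T ≤ ((c : ℝ) : ℂ) • 1) (ψ : H) :
    ‖T ψ‖ ≤ c * ‖ψ‖ := by
  have h3 : ‖T‖ ≤ c := by
    have h4 : T ≤ algebraMap ℝ (H →L[ℂ] H) c := by
      rw [Algebra.algebraMap_eq_smul_one]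
      exact h2
    exact (CStarAlgebra.norm_le_iff_le_algebraMap T hc h).2 h4
  exact (T.le_opNorm ψ).trans (mul_le_mul_of_nonneg_right h3 (norm_nonneg _))

theorem ev_mul_eq (ψ : H) (S T : H →L[ℂ] H) (hS : IsSelfAdjoint S) :
    ev ψ (S * T) = (⟪S ψ, T ψ⟫_ℂ).re := by
  simp only [ev, ContinuousLinearMap.mul_apply]
  rw [← ContinuousLinearMap.adjoint_inner_left, ← ContinuousLinearMap.star_eq_adjoint, hS.star_eq]

theorem pvm_nonneg (T : H →L[ℂ] H) (h : IsIdempotentElem T) (h2 : IsSelfAdjoint T) : 0 ≤ T := by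
  have : T = star T * T := by rw [h2.star_eq]; exact h.symm
  rw [this]; exact star_mul_self_nonneg T

theorem Pvm.povm {X A : Type} [Fintype A] {P : X → A → (H →L[ℂ] H)} (h : Pvm P) : Povm P :=
  ⟨fun x a => pvm_nonneg _ (h.1 x a).1 (h.1 x a).2, h.2⟩
end

end Pool.Agent.H500R2.PR
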