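import Mathlib

set_option autoImplicit false
open scoped InnerProductSpace

namespace Pool.Agent.H500R2.PR

section weights
variable {X Y : Type} [Fintype X] [Fintype Y]

/-- first marginal of the weight `μ` on `X × Y` -/
noncomputable def mX (μ : X → Y → ℝ) (x : X) : ℝ := ∑ y, μ x y

/-- second marginal of the weight `μ` on `X × Y` -/
noncomputable def mY (μ : X → Y → ℝ) (y : Y) : ℝ := ∑ x, μ x y

/-- product weight of a pair of question vectors -/
noncomputable def pw {X Y : Type} (μ : X → Y → ℝ) {n : ℕ} (x : Fin n → X) (y : Fin n → Y) : ℝ :=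
  ∏ j, μ (x j) (y j)

/-- the Dirichlet form: mean over `y` of the conditional variance of `h(x)` given `y` -/
noncomputable def DX {H : Type} [NormedAddCommGroup H] [InnerProductSpace ℂ H]
    (μ : X → Y → ℝ) (h : X → H) : ℝ :=
  ∑ x, mX μ x * ‖h x‖ ^ 2 - ∑ y, mY μ y * ‖∑ x, ((μ x y / mY μ y : ℝ) : ℂ) • h x‖ ^ 2

/-- two questions of the first player with a common possible partner -/
def RX {X Y : Type} (μ : X → Y → ℝ) (x x' : X) : Prop := ∃ y, 0 < μ x y ∧ 0 < μ x' y

open Classical in
/-- Alice's hybrid kernel at coordinate `i`: the coordinates `j < i` are resampled given Bob's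
question `t j`, the coordinate `i` is `u`, the coordinates `j > i` are `s j`. -/
noncomputable def kA (μ : X → Y → ℝ) {n : ℕ} (i : Fin n) (s : Fin n → X) (t : Fin n → Y)
    (u : X) (x : Fin n → X) : ℝ :=
  ∏ j, if j < i then μ (x j) (t j) / mY μ (t j)
    else if j = i then (if x j = u then 1 else 0) else (if x j = s j then 1 else 0)

open Classical in
/-- Bob's hybrid kernel at coordinate `i`: the coordinates `j < i` are `t j`, the coordinate `i`
is `v`, the coordinates `j > i` are resampled given Alice's question `s j`. -/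
noncomputable def kB (μ : X → Y → ℝ) {n : ℕ} (i : Fin n) (s : Fin n → X) (t : Fin n → Y)
    (v : Y) (y : Fin n → Y) : ℝ :=
  ∏ j, if j < i then (if y j = t j then 1 else 0)
    else if j = i then (if y j = v then 1 else 0) else μ (s j) (y j) / mX μ (s j)

end weights

section ops
variable {H : Type} [NormedAddCommGroup H] [InnerProductSpace ℂ H]

/-- the expectation of an operator -/
noncomputable def ev (ψ : H) (T : H →L[ℂ] H) : ℝ := (⟪ψ, T ψ⟫_ℂ).re

variable {X A : Type} [Fintype A]

open Classical in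
/-- the operator of the questions on `C` are `κx`, the answers on `C` are `κa` -/
noncomputable def opE {n : ℕ} (P : (Fin n → X) → (Fin n → A) → (H →L[ℂ] H)) (C : Finset (Fin n))
    (κx : C → X) (κa : C → A) (x : Fin n → X) : H →L[ℂ] H :=
  if (∀ j : C, x j = κx j) then ∑ a, (if (∀ j : C, a j = κa j) then P x a else 0) else 0

open Classical in
/-- the same together with the answer at `i` is `a` -/
noncomputable def opP {n : ℕ} (P : (Fin n → X) → (Fin n → A) → (H →L[ℂ] H)) (C : Finset (Fin n))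
    (κx : C → X) (κa : C → A) (i : Fin n) (a : A) (x : Fin n → X) : H →L[ℂ] H :=
  if (∀ j : C, x j = κx j) then ∑ a', (if (∀ j : C, a' j = κa j) ∧ a' i = a then P x a' else 0)
  else 0

end ops

/-- a family of POVMs, indexed by questions -/
def Povm {H : Type} [NormedAddCommGroup H] [InnerProductSpace ℂ H] [CompleteSpace H]
    {X A : Type} [Fintype A] (P : X → A → (H →L[ℂ] H)) : Prop :=
  (∀ x a, 0 ≤ P x a) ∧ ∀ x, ∑ a, P x a = 1

/-- a family of projective measurements, indexed by questions -/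
def Pvm {H : Type} [NormedAddCommGroup H] [InnerProductSpace ℂ H] [CompleteSpace H]
    {X A : Type} [Fintype A] (P : X → A → (H →L[ℂ] H)) : Prop :=
  (∀ x a, IsIdempotentElem (P x a) ∧ IsSelfAdjoint (P x a)) ∧ ∀ x, ∑ a, P x a = 1

/-- the weighted losing probability of a one-shot strategy (weight `w` on question pairs) -/
noncomputable def lose {H : Type} [NormedAddCommGroup H] [InnerProductSpace ℂ H]
    {X Y A B : Type} [Fintype X] [Fintype Y] [Fintype A] [Fintype B]
    (w : X → Y → ℝ) (V : X → Y → A → B → Bool)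
    (P : X → A → (H →L[ℂ] H)) (Q : Y → B → (H →L[ℂ] H)) (ψ : H) : ℝ :=
  ∑ x, ∑ y, w x y * ∑ a, ∑ b, (if V x y a b = true then 0 else ev ψ (P x a * Q y b))

open Classical in
/-- the probability to win all the coordinates in `C`, for given questions -/
noncomputable def wn {H : Type} [NormedAddCommGroup H] [InnerProductSpace ℂ H]
    {X Y A B : Type} [Fintype A] [Fintype B]
    (V : X → Y → A → B → Bool) {n : ℕ}
    (P : (Fin n → X) → (Fin n → A) → (H →L[ℂ] H)) (Q : (Fin n → Y) → (Fin n → B) → (H →L[ℂ] H))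
    (ψ : H) (C : Finset (Fin n)) (x : Fin n → X) (y : Fin n → Y) : ℝ :=
  ∑ a, ∑ b, (if (∀ i ∈ C, V (x i) (y i) (a i) (b i) = true) then ev ψ (P x a * Q y b) else 0)

/-- the probability to win all the coordinates in `C` -/
noncomputable def Wn {H : Type} [NormedAddCommGroup H] [InnerProductSpace ℂ H]
    {X Y A B : Type} [Fintype X] [Fintype Y] [Fintype A] [Fintype B]
    (μ : X → Y → ℝ) (V : X → Y → A → B → Bool) {n : ℕ}
    (P : (Fin n → X) → (Fin n → A) → (H →L[ℂ] H)) (Q : (Fin n → Y) → (Fin n → B) → (H →L[ℂ] H))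
    (ψ : H) (C : Finset (Fin n)) : ℝ :=
  ∑ x, ∑ y, pw μ x y * wn V P Q ψ C x y

section hyb
variable {X Y A B : Type} [Fintype X] [Fintype Y] [Fintype A] [Fintype B]
variable {H : Type} [NormedAddCommGroup H] [InnerProductSpace ℂ H] [CompleteSpace H]

/-- Alice's hybrid operators -/
noncomputable def hA (μ : X → Y → ℝ) {n : ℕ} (P : (Fin n → X) → (Fin n → A) → (H →L[ℂ] H))
    (C : Finset (Fin n)) (κx : C → X) (κa : C → A) (δ : ℝ) (i : Fin n) (s : Fin n → X)
    (t : Fin n → Y) (u : X) (a : A) : H →L[ℂ] H :=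
  ∑ x, ((kA μ i s t u x : ℝ) : ℂ) •
    (opP P C κx κa i a x + ((δ / Fintype.card A : ℝ) : ℂ) • (1 : H →L[ℂ] H))

/-- Bob's hybrid operators -/
noncomputable def hB (μ : X → Y → ℝ) {n : ℕ} (Q : (Fin n → Y) → (Fin n → B) → (H →L[ℂ] H))
    (C : Finset (Fin n)) (κy : C → Y) (κb : C → B) (δ : ℝ) (i : Fin n) (s : Fin n → X)
    (t : Fin n → Y) (v : Y) (b : B) : H →L[ℂ] H :=
  ∑ y, ((kB μ i s t v y : ℝ) : ℂ) •
    (opP Q C κy κb i b y + ((δ / Fintype.card B : ℝ) : ℂ) • (1 : H →L[ℂ] H))

end hyb

end Pool.Agent.H500R2.PR
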