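import Pool.Agent.H500R2.PR.Basic

/-! G1: greedy choice of a set of coordinates. -/

namespace Pool.Agent.H500R2.PR

/-- G1 -/
theorem greedy (n : ℕ) (W : Finset (Fin n) → ℝ) (h0 : W ∅ ≤ 1) (hW : ∀ C, 0 ≤ W C)
    (M : ℕ) (hM : 0 < M) :
    ∃ C : Finset (Fin n), C.card ≤ M ∧ ∀ i, i ∉ C → W C - W (insert i C) ≤ 1 / M := by
  classical
  have hM' : (0 : ℝ) < M := by exact_mod_cast hM
  set F : Finset (Finset (Fin n)) :=
    Finset.univ.filter (fun C => (C.card : ℝ) ≤ M * (1 - W C)) with hF
  have hne : F.Nonempty := by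
    refine ⟨∅, ?_⟩
    rw [hF, Finset.mem_filter]
    refine ⟨Finset.mem_univ _, ?_⟩
    rw [Finset.card_empty, Nat.cast_zero]
    exact mul_nonneg hM'.le (by linarith)
  obtain ⟨C, hC, hmax⟩ := Finset.exists_max_image F Finset.card hne
  rw [hF, Finset.mem_filter] at hC
  have hC2 := hC.2
  refine ⟨C, ?_, fun i hi => ?_⟩
  · have : (C.card : ℝ) ≤ M := by nlinarith [hW C]
    exact_mod_cast this
  · have hn : insert i C ∉ F := by
      intro h
      have := hmax _ h
      rw [Finset.card_insert_of_notMem hi] at this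
      omega
    rw [hF, Finset.mem_filter, not_and] at hn
    have h2 := hn (Finset.mem_univ _)
    rw [Finset.card_insert_of_notMem hi, not_le] at h2
    push_cast at h2
    rw [le_div_iff₀ hM']
    nlinarith

end Pool.Agent.H500R2.PR
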