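import Pool.Agent.H500R2.PR.Basic

set_option autoImplicit false
open scoped InnerProductSpace

namespace Pool.Agent.H500R2.PR

section H1aux
variable {H : Type} [NormedAddCommGroup H] [InnerProductSpace ℂ H] [CompleteSpace H]

theorem H1_smul (c : ℝ) : ((c : ℝ) : ℂ) • (1 : H →L[ℂ] H) = algebraMap ℝ (H →L[ℂ] H) c := by
  rw [Algebra.algebraMap_eq_smul_one]
  rfl

theorem H1_sa {c : ℝ} {a : H →L[ℂ] H} (h : algebraMap ℝ (H →L[ℂ] H) c ≤ a) : IsSelfAdjoint a := by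
  have h1 : IsSelfAdjoint (a - algebraMap ℝ (H →L[ℂ] H) c) := IsSelfAdjoint.of_nonneg (sub_nonneg.2 h)
  have h2 : IsSelfAdjoint (algebraMap ℝ (H →L[ℂ] H) c) := IsSelfAdjoint.algebraMap _ (IsSelfAdjoint.all c)
  simpa using h1.add h2

theorem H1_cont {c : ℝ} (hc : 0 < c) {s : Set ℝ} (hs : ∀ x ∈ s, c ≤ x) :
    ContinuousOn (fun t : ℝ => (Real.sqrt t)⁻¹) s := by
  refine ContinuousOn.inv₀ Real.continuous_sqrt.continuousOn fun x hx => ?_
  exact (Real.sqrt_pos.2 (hc.trans_le (hs x hx))).ne'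

theorem H1_inv_le {c x : ℝ} (hc : 0 < c) (hx : c ≤ x) : (Real.sqrt x)⁻¹ ≤ (Real.sqrt c)⁻¹ :=
  inv_anti₀ (Real.sqrt_pos.2 hc) (Real.sqrt_le_sqrt hx)

end H1aux

/-- H1: renormalisation -/
theorem renorm (δ : ℝ) (hδ : 0 < δ) (hδ1 : δ ≤ 1) :
    ∃ K : ℝ, 0 ≤ K ∧ ∀ (H : Type) [NormedAddCommGroup H] [InnerProductSpace ℂ H] [CompleteSpace H]
      (E : H →L[ℂ] H), ((δ : ℝ) : ℂ) • (1 : H →L[ℂ] H) ≤ E → E ≤ ((2 : ℝ) : ℂ) • (1 : H →L[ℂ] H) →
      ∃ R : H →L[ℂ] H, IsSelfAdjoint R ∧ R * R = E ∧ (∀ T, Commute T E → Commute T R) ∧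
        ∀ E' : H →L[ℂ] H, ((δ : ℝ) : ℂ) • (1 : H →L[ℂ] H) ≤ E' →
          E' ≤ ((2 : ℝ) : ℂ) • (1 : H →L[ℂ] H) →
          ∃ S : H →L[ℂ] H, star S * E' * S = 1 ∧
            (∀ T, Commute T E → Commute T E' → Commute T S ∧ Commute T (star S)) ∧
            (∀ ψ : H, ‖S (R ψ) - ψ‖ ≤ K * ‖E' ψ - E ψ‖) ∧ (∀ ψ : H, ‖S (R ψ)‖ ≤ K * ‖ψ‖) := by
  set c1 : ℝ := (Real.sqrt δ)⁻¹ with hc1
  set c2 : ℝ := (Real.sqrt (δ / 2))⁻¹ with hc2
  have hc1n : 0 ≤ c1 := by positivity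
  have hc2n : 0 ≤ c2 := by positivity
  have hd2 : 0 < δ / 2 := by positivity
  refine ⟨c1 * c2 * c1 + c1 * c2 * Real.sqrt 2, by positivity, ?_⟩
  intro H _ _ _ E hE1 hE2
  rw [H1_smul] at hE1 hE2
  have hEsa := H1_sa hE1
  have hsp : ∀ x ∈ spectrum ℝ E, δ ≤ x := (algebraMap_le_iff_le_spectrum hEsa).1 hE1
  have hsp2 : ∀ x ∈ spectrum ℝ E, x ≤ 2 := (le_algebraMap_iff_spectrum_le hEsa).1 hE2
  set R : H →L[ℂ] H := cfc Real.sqrt E with hR
  set Ri : H →L[ℂ] H := cfc (fun t : ℝ => (Real.sqrt t)⁻¹) E with hRi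
  have hcR : ContinuousOn Real.sqrt (spectrum ℝ E) := Real.continuous_sqrt.continuousOn
  have hcRi : ContinuousOn (fun t : ℝ => (Real.sqrt t)⁻¹) (spectrum ℝ E) := H1_cont hδ hsp
  have hRsa : IsSelfAdjoint R := cfc_predicate _ _
  have hRisa : IsSelfAdjoint Ri := cfc_predicate _ _
  have hRR : R * R = E := by
    rw [hR, ← cfc_mul _ _ E hcR hcR]
    conv_rhs => rw [← cfc_id' ℝ E hEsa]
    refine cfc_congr fun x hx => ?_
    exact Real.mul_self_sqrt (hδ.le.trans (hsp x hx))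
  have hRRi : R * Ri = 1 := by
    rw [hR, hRi, ← cfc_mul _ _ E hcR hcRi, ← cfc_one ℝ E hEsa]
    refine cfc_congr fun x hx => ?_
    exact mul_inv_cancel₀ (Real.sqrt_pos.2 (hδ.trans_le (hsp x hx))).ne'
  have hRiR : Ri * R = 1 := by
    rw [hR, hRi, ← cfc_mul _ _ E hcRi hcR, ← cfc_one ℝ E hEsa]
    refine cfc_congr fun x hx => ?_
    exact inv_mul_cancel₀ (Real.sqrt_pos.2 (hδ.trans_le (hsp x hx))).ne'
  have hRiE : Ri * E = R := by rw [← hRR, ← mul_assoc, hRiR, one_mul]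
  have hnRi : ‖Ri‖ ≤ c1 := by
    refine norm_cfc_le hc1n fun x hx => ?_
    rw [Real.norm_of_nonneg (by positivity)]
    exact H1_inv_le hδ (hsp x hx)
  have hnR : ‖R‖ ≤ Real.sqrt 2 := by
    refine norm_cfc_le (by positivity) fun x hx => ?_
    rw [Real.norm_of_nonneg (by positivity)]
    exact Real.sqrt_le_sqrt (hsp2 x hx)
  refine ⟨R, hRsa, hRR, fun T hT => (hT.symm.cfc_real Real.sqrt).symm, ?_⟩
  intro E' hE'1 _
  rw [H1_smul] at hE'1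
  have hE'sa := H1_sa hE'1
  set Z : H →L[ℂ] H := Ri * E' * Ri with hZ
  have hZ1 : algebraMap ℝ (H →L[ℂ] H) (δ / 2) ≤ Z := by
    have h1 : 0 ≤ Ri * (E' - algebraMap ℝ (H →L[ℂ] H) δ) * Ri :=
      hRisa.conjugate_nonneg (sub_nonneg.2 hE'1)
    have h2 : algebraMap ℝ (H →L[ℂ] H) (δ / 2) ≤
        cfc (fun t : ℝ => δ * ((Real.sqrt t)⁻¹ * (Real.sqrt t)⁻¹)) E := by
      refine algebraMap_le_cfc _ _ _ (fun x hx => ?_) ?_ hEsa
      · have h3 := hδ.trans_le (hsp x hx)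
        rw [← mul_inv, Real.mul_self_sqrt h3.le]
        have h4 := hsp2 x hx
        rw [div_eq_mul_inv]
        exact mul_le_mul_of_nonneg_left (inv_anti₀ h3 h4) hδ.le
      · exact continuousOn_const.mul (hcRi.mul hcRi)
    have h3 : cfc (fun t : ℝ => δ * ((Real.sqrt t)⁻¹ * (Real.sqrt t)⁻¹)) E =
        Ri * algebraMap ℝ (H →L[ℂ] H) δ * Ri := by
      rw [cfc_const_mul δ (fun t : ℝ => (Real.sqrt t)⁻¹ * (Real.sqrt t)⁻¹) E (hcRi.mul hcRi),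
        cfc_mul (fun t : ℝ => (Real.sqrt t)⁻¹) (fun t : ℝ => (Real.sqrt t)⁻¹) E hcRi hcRi, ← hRi,
        Algebra.algebraMap_eq_smul_one, mul_smul_comm, mul_one, smul_mul_assoc]
    rw [h3] at h2
    have h4 : Z = Ri * (E' - algebraMap ℝ (H →L[ℂ] H) δ) * Ri +
        Ri * algebraMap ℝ (H →L[ℂ] H) δ * Ri := by
      rw [hZ, mul_sub, sub_mul, sub_add_cancel]
    rw [h4]
    exact h2.trans (le_add_of_nonneg_left h1)
  have hZsa := H1_sa hZ1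
  have hspZ : ∀ x ∈ spectrum ℝ Z, δ / 2 ≤ x := (algebraMap_le_iff_le_spectrum hZsa).1 hZ1
  set G : H →L[ℂ] H := cfc (fun t : ℝ => (Real.sqrt t)⁻¹) Z with hG
  have hcG : ContinuousOn (fun t : ℝ => (Real.sqrt t)⁻¹) (spectrum ℝ Z) := H1_cont hd2 hspZ
  have hGsa : IsSelfAdjoint G := cfc_predicate _ _
  have hGZG : G * Z * G = 1 := by
    conv_lhs => rw [← cfc_id' ℝ Z hZsa]
    rw [hG, cfc_id' ℝ Z hZsa]
    have h1 : cfc (fun t : ℝ => (Real.sqrt t)⁻¹ * t * (Real.sqrt t)⁻¹) Z =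
        cfc (fun t : ℝ => (Real.sqrt t)⁻¹) Z * Z * cfc (fun t : ℝ => (Real.sqrt t)⁻¹) Z := by
      rw [cfc_mul (fun t : ℝ => (Real.sqrt t)⁻¹ * t) (fun t : ℝ => (Real.sqrt t)⁻¹) Z
        (hcG.mul continuousOn_id) hcG,
        cfc_mul (fun t : ℝ => (Real.sqrt t)⁻¹) (fun t : ℝ => t) Z hcG continuousOn_id,
        cfc_id' ℝ Z hZsa]
    rw [← h1, ← cfc_one ℝ Z hZsa]
    refine cfc_congr fun x hx => ?_
    have h2 := hd2.trans_le (hspZ x hx)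
    have h3 := (Real.sqrt_pos.2 h2).ne'
    show (Real.sqrt x)⁻¹ * x * (Real.sqrt x)⁻¹ = 1
    field_simp
    exact (Real.sq_sqrt h2.le).symm
  have hnG : ‖G‖ ≤ c2 := by
    refine norm_cfc_le hc2n fun x hx => ?_
    rw [Real.norm_of_nonneg (by positivity)]
    exact H1_inv_le hd2 (hspZ x hx)
  set W : H →L[ℂ] H := cfc (fun t : ℝ => (Real.sqrt t)⁻¹ * (1 + Real.sqrt t)⁻¹) Z with hW
  have hcg : ContinuousOn (fun t : ℝ => (1 + Real.sqrt t)⁻¹) (spectrum ℝ Z) := by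
    refine ContinuousOn.inv₀ (by fun_prop) fun x hx => ?_
    positivity
  have hnW : ‖W‖ ≤ c2 := by
    refine norm_cfc_le hc2n fun x hx => ?_
    rw [Real.norm_of_nonneg (by positivity)]
    have h1 : (1 + Real.sqrt x)⁻¹ ≤ 1 := inv_le_one_of_one_le₀ (by linarith [Real.sqrt_nonneg x])
    calc (Real.sqrt x)⁻¹ * (1 + Real.sqrt x)⁻¹ ≤ (Real.sqrt x)⁻¹ * 1 :=
          mul_le_mul_of_nonneg_left h1 (by positivity)
      _ ≤ c2 := by rw [mul_one]; exact H1_inv_le hd2 (hspZ x hx)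
  have hG1 : G - 1 = W * (1 - Z) := by
    have h1 : W * (1 - Z) = cfc (fun t : ℝ => ((Real.sqrt t)⁻¹ * (1 + Real.sqrt t)⁻¹) * (1 - t)) Z := by
      rw [cfc_mul (fun t : ℝ => (Real.sqrt t)⁻¹ * (1 + Real.sqrt t)⁻¹) (fun t : ℝ => 1 - t) Z
        (hcG.mul hcg) (by fun_prop), ← hW]
      congr 1
      rw [cfc_sub (fun _ => (1:ℝ)) (fun t => t) Z, cfc_const_one ℝ Z, cfc_id' ℝ Z hZsa]
    have h2 : G - 1 = cfc (fun t : ℝ => (Real.sqrt t)⁻¹ - 1) Z := by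
      rw [cfc_sub _ (fun _ => (1:ℝ)) Z hcG continuousOn_const, cfc_const_one ℝ Z]
    rw [h1, h2]
    refine cfc_congr fun x hx => ?_
    have h3 := hd2.trans_le (hspZ x hx)
    have h4 := Real.sqrt_pos.2 h3
    have h5 := Real.sq_sqrt h3.le
    show (Real.sqrt x)⁻¹ - 1 = ((Real.sqrt x)⁻¹ * (1 + Real.sqrt x)⁻¹) * (1 - x)
    have h6 : 1 - x = (1 - Real.sqrt x) * (1 + Real.sqrt x) := by nlinarith
    rw [h6]
    field_simp
  have hstar : star (Ri * G) = G * Ri := by rw [star_mul, hGsa.star_eq, hRisa.star_eq]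
  refine ⟨Ri * G, ?_, ?_, ?_, ?_⟩
  · rw [hstar]
    calc G * Ri * E' * (Ri * G) = G * (Ri * E' * Ri) * G := by simp only [mul_assoc]
      _ = 1 := hGZG
  · intro T hTE hTE'
    have h1 : Commute T Ri := (hTE.symm.cfc_real _).symm
    have h2 : Commute T Z := (h1.mul_right hTE').mul_right h1
    have h3 : Commute T G := (h2.symm.cfc_real _).symm
    rw [hstar]
    exact ⟨h1.mul_right h3, h3.mul_right h1⟩
  · intro ψ
    have h1 : (Ri * G) (R ψ) - ψ = Ri (W (Ri (E ψ - E' ψ))) := by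
      have e1 : Ri (R ψ) = ψ := by
        rw [← mul_apply_eq_comp, hRiR]; rfl
      have e2 : (Ri * G) (R ψ) - ψ = Ri ((G - 1) (R ψ)) := by
        rw [mul_apply_eq_comp, sub_apply, map_sub,
          one_apply_eq_self, e1]
      rw [e2, hG1, mul_apply_eq_comp]
      congr 2
      rw [sub_apply, one_apply_eq_self, hZ,
        mul_apply_eq_comp, mul_apply_eq_comp, e1, map_sub]
      congr 1
      rw [← mul_apply_eq_comp, hRiE]
    have h2 : ‖E ψ - E' ψ‖ = ‖E' ψ - E ψ‖ := norm_sub_rev _ _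
    rw [h1]
    calc ‖Ri (W (Ri (E ψ - E' ψ)))‖ ≤ ‖Ri‖ * (‖W‖ * (‖Ri‖ * ‖E ψ - E' ψ‖)) := by
          refine (Ri.le_opNorm _).trans (mul_le_mul_of_nonneg_left ?_ (norm_nonneg _))
          refine (W.le_opNorm _).trans (mul_le_mul_of_nonneg_left ?_ (norm_nonneg _))
          exact Ri.le_opNorm _
      _ ≤ c1 * (c2 * (c1 * ‖E' ψ - E ψ‖)) := by
          rw [h2]
          gcongr
      _ = c1 * c2 * c1 * ‖E' ψ - E ψ‖ := by ring
      _ ≤ (c1 * c2 * c1 + c1 * c2 * Real.sqrt 2) * ‖E' ψ - E ψ‖ := by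
          refine mul_le_mul_of_nonneg_right ?_ (norm_nonneg _)
          exact le_add_of_nonneg_right (by positivity)
  · intro ψ
    calc ‖(Ri * G) (R ψ)‖ ≤ ‖Ri‖ * (‖G‖ * (‖R‖ * ‖ψ‖)) := by
          rw [mul_apply_eq_comp]
          refine (Ri.le_opNorm _).trans (mul_le_mul_of_nonneg_left ?_ (norm_nonneg _))
          refine (G.le_opNorm _).trans (mul_le_mul_of_nonneg_left ?_ (norm_nonneg _))
          exact R.le_opNorm _
      _ ≤ c1 * (c2 * (Real.sqrt 2 * ‖ψ‖)) := by gcongr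
      _ = c1 * c2 * Real.sqrt 2 * ‖ψ‖ := by ring
      _ ≤ (c1 * c2 * c1 + c1 * c2 * Real.sqrt 2) * ‖ψ‖ := by
          refine mul_le_mul_of_nonneg_right ?_ (norm_nonneg _)
          exact le_add_of_nonneg_left (by positivity)

end Pool.Agent.H500R2.PR
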