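import Pool.Agent.H500R2.PR.Basic
set_option autoImplicit false
open scoped InnerProductSpace
namespace Pool.Agent.H500R2.PR

section h2block
variable {ι : Type} [Fintype ι] [DecidableEq ι]
variable {H : Type} [NormedAddCommGroup H] [InnerProductSpace ℂ H] [CompleteSpace H]

/-- the direct sum of copies of `H` -/
abbrev h2K (ι H : Type) := PiLp 2 (fun _ : ι => H)

/-- block operator -/
noncomputable def h2blk (T : Matrix ι ι (H →L[ℂ] H)) : h2K ι H →L[ℂ] h2K ι H :=
  ((PiLp.continuousLinearEquiv 2 ℂ (fun _ : ι => H)).symm : (ι → H) →L[ℂ] h2K ι H) ∘L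
    (ContinuousLinearMap.pi (fun o => ∑ o', (T o o') ∘L (PiLp.proj 2 (fun _ : ι => H) o' : h2K ι H →L[ℂ] H)))

omit [DecidableEq ι] [CompleteSpace H] in
theorem h2blk_apply (T : Matrix ι ι (H →L[ℂ] H)) (v : h2K ι H) (o : ι) :
    h2blk T v o = ∑ o', T o o' (v o') := by
  unfold h2blk
  simp [ContinuousLinearMap.sum_apply]

omit [DecidableEq ι] [CompleteSpace H] in
theorem h2blk_mul (S T : Matrix ι ι (H →L[ℂ] H)) : h2blk (S * T) = h2blk S * h2blk T := by
  ext v o
  rw [ContinuousLinearMap.mul_apply, h2blk_apply, h2blk_apply]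
  simp_rw [h2blk_apply, map_sum, Matrix.mul_apply, ContinuousLinearMap.sum_apply,
    ContinuousLinearMap.mul_apply]
  rw [Finset.sum_comm]

omit [CompleteSpace H] in
theorem h2blk_one : h2blk (1 : Matrix ι ι (H →L[ℂ] H)) = 1 := by
  ext v o
  rw [h2blk_apply, Finset.sum_eq_single o]
  · simp
  · intro b _ hb
    rw [Matrix.one_apply_ne (Ne.symm hb)]; simp
  · intro h; exact absurd (Finset.mem_univ _) h

omit [DecidableEq ι] in
theorem h2blk_star (T : Matrix ι ι (H →L[ℂ] H)) : h2blk (star T) = star (h2blk T) := by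
  rw [ContinuousLinearMap.star_eq_adjoint]
  rw [ContinuousLinearMap.eq_adjoint_iff]
  intro x y
  rw [PiLp.inner_apply, PiLp.inner_apply]
  simp_rw [h2blk_apply, sum_inner, inner_sum]
  rw [Finset.sum_comm]
  refine Finset.sum_congr rfl fun i _ => Finset.sum_congr rfl fun j _ => ?_
  rw [Matrix.star_apply, ContinuousLinearMap.star_eq_adjoint, ContinuousLinearMap.adjoint_inner_left]

omit [DecidableEq ι] [CompleteSpace H] in
theorem h2blk_add (S T : Matrix ι ι (H →L[ℂ] H)) : h2blk (S + T) = h2blk S + h2blk T := by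
  ext v o
  rw [ContinuousLinearMap.add_apply, PiLp.add_apply, h2blk_apply, h2blk_apply, h2blk_apply,
    ← Finset.sum_add_distrib]
  rfl

omit [DecidableEq ι] [CompleteSpace H] in
theorem h2blk_zero : h2blk (0 : Matrix ι ι (H →L[ℂ] H)) = 0 := by
  ext v o
  rw [h2blk_apply]
  simp

omit [DecidableEq ι] [CompleteSpace H] in
theorem h2blk_sum {κ : Type} (s : Finset κ) (T : κ → Matrix ι ι (H →L[ℂ] H)) :
    h2blk (∑ k ∈ s, T k) = ∑ k ∈ s, h2blk (T k) := by
  classical
  induction s using Finset.induction_on with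
  | empty => simp [h2blk_zero]
  | insert i s hi ih => rw [Finset.sum_insert hi, Finset.sum_insert hi, h2blk_add, ih]

/-- diagonal action -/
noncomputable def h2theta (ι H : Type) [Fintype ι] [DecidableEq ι] [NormedAddCommGroup H]
    [InnerProductSpace ℂ H] [CompleteSpace H] : (H →L[ℂ] H) →⋆ₐ[ℂ] (h2K ι H →L[ℂ] h2K ι H) where
  toFun T := h2blk (Matrix.diagonal (fun _ => T))
  map_one' := by
    rw [Matrix.diagonal_one, h2blk_one]
  map_mul' S T := by
    rw [← h2blk_mul, Matrix.diagonal_mul_diagonal]
  map_zero' := by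
    rw [Matrix.diagonal_zero, h2blk_zero]
  map_add' S T := by
    rw [← h2blk_add, Matrix.diagonal_add]
  commutes' r := by
    ext v o
    rw [h2blk_apply, Finset.sum_eq_single o]
    · rw [Matrix.diagonal_apply_eq]
      rw [Algebra.algebraMap_eq_smul_one, Algebra.algebraMap_eq_smul_one]
      simp
    · intro b _ hb
      rw [Matrix.diagonal_apply_ne _ (Ne.symm hb)]; simp
    · intro h; exact absurd (Finset.mem_univ _) h
  map_star' T := by
    rw [← h2blk_star]
    congr 1
    rw [Matrix.star_eq_conjTranspose, Matrix.diagonal_conjTranspose]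
    rfl

/-- inclusion of one copy -/
noncomputable def h2J (o : ι) : H →ₗᵢ[ℂ] h2K ι H :=
  LinearMap.isometryOfInner
    { toFun := fun v => WithLp.toLp 2 (Pi.single o v)
      map_add' := fun v w => by
        rw [Pi.single_add]; rfl
      map_smul' := fun c v => by
        rw [Pi.single_smul]; rfl }
    (by
      intro x y
      rw [PiLp.inner_apply, Finset.sum_eq_single o]
      · simp
      · intro b _ hb
        simp [hb]
      · intro h; exact absurd (Finset.mem_univ _) h)

omit [CompleteSpace H] in
theorem h2J_apply (o : ι) (v : H) : h2J o v = WithLp.toLp 2 (Pi.single o v) := rfl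

omit [CompleteSpace H] in
theorem h2J_inner (o : ι) (T : Matrix ι ι (H →L[ℂ] H)) (v w : H) :
    ⟪h2J o v, h2blk T (h2J o w)⟫_ℂ = ⟪v, T o o w⟫_ℂ := by
  rw [PiLp.inner_apply, Finset.sum_eq_single o]
  · rw [h2blk_apply, Finset.sum_eq_single o]
    · simp [h2J_apply]
    · intro b _ hb
      simp [h2J_apply, hb]
    · intro h; exact absurd (Finset.mem_univ _) h
  · intro b _ hb
    simp [h2J_apply, hb]
  · intro h; exact absurd (Finset.mem_univ _) h

theorem h2theta_J (o : ι) (T : H →L[ℂ] H) (v : H) : h2theta ι H T (h2J o v) = h2J o (T v) := by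
  show h2blk (Matrix.diagonal (fun _ => T)) (h2J o v) = h2J o (T v)
  ext i
  rw [h2blk_apply, Finset.sum_eq_single i]
  · rw [Matrix.diagonal_apply_eq]
    by_cases h : i = o
    · subst h; simp [h2J_apply]
    · simp [h2J_apply, h]
  · intro b _ hb
    rw [Matrix.diagonal_apply_ne _ (Ne.symm hb)]; simp
  · intro h; exact absurd (Finset.mem_univ _) h

end h2block

section h2alg
variable {R : Type} [Ring R] [StarRing R] {A : Type} [Fintype A] [DecidableEq A]

/-- the Halmos matrix of the column `V` -/
def h2U (V : A → R) : Matrix (Option A) (Option A) R := fun o o' =>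
  match o, o' with
  | some a, none => V a
  | some a, some b => (if a = b then 1 else 0) - V a * V b
  | none, some b => - V b
  | none, none => 0

omit [Fintype A] in
theorem h2U_star (V : A → R) (hV : ∀ a, star (V a) = V a) (o o' : Option A) :
    star (h2U V) o o' = match o, o' with
      | none, some a => V a
      | some a, some b => (if a = b then 1 else 0) - V a * V b
      | some b, none => - V b
      | none, none => 0 := by
  rw [Matrix.star_apply]
  rcases o with _ | a <;> rcases o' with _ | b
  · simp [h2U]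
  · simp [h2U, hV]
  · simp [h2U, hV]
  · simp only [h2U, star_sub, star_mul, hV]
    congr 1
    by_cases h : a = b
    · subst h; simp
    · rw [if_neg h, if_neg (Ne.symm h)]; simp

theorem h2U_unit1 (V : A → R) (hV : ∀ a, star (V a) = V a) (h1 : ∑ a, V a * V a = 1) :
    star (h2U V) * h2U V = 1 := by
  ext o o'
  rw [Matrix.mul_apply, Fintype.sum_option]
  rcases o with _ | b <;> rcases o' with _ | c
  · rw [Matrix.one_apply_eq]
    simp only [h2U_star V hV]
    simp [h2U, h1]
  · rw [Matrix.one_apply_ne (by simp)]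
    simp only [h2U_star V hV]
    simp only [h2U, mul_sub, zero_mul, zero_add, Finset.sum_sub_distrib]
    simp_rw [← mul_assoc]
    rw [← Finset.sum_mul, h1, one_mul]
    simp
  · rw [Matrix.one_apply_ne (by simp)]
    simp only [h2U_star V hV]
    simp only [h2U, sub_mul, mul_zero, zero_add, Finset.sum_sub_distrib]
    simp_rw [mul_assoc]
    rw [← Finset.mul_sum, h1, mul_one]
    simp
  · simp only [h2U_star V hV]
    simp only [h2U, sub_mul, mul_sub, Finset.sum_sub_distrib]
    have e1 : ∑ x, V b * V x * (V x * V c) = V b * V c := by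
      have : ∀ x, V b * V x * (V x * V c) = V b * (V x * V x) * V c := by
        intro x; simp only [mul_assoc]
      simp_rw [this]
      rw [← Finset.sum_mul, ← Finset.mul_sum, h1, mul_one]
    rw [e1]
    by_cases h : b = c
    · subst h
      rw [Matrix.one_apply_eq]
      simp
    · rw [Matrix.one_apply_ne (by simpa using h)]
      simp [h]

theorem h2U_unit2 (V : A → R) (hV : ∀ a, star (V a) = V a) (h1 : ∑ a, V a * V a = 1) :
    h2U V * star (h2U V) = 1 := by
  ext o o'
  rw [Matrix.mul_apply, Fintype.sum_option]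
  rcases o with _ | b <;> rcases o' with _ | c
  · rw [Matrix.one_apply_eq]
    simp only [h2U_star V hV]
    simp [h2U, h1]
  · rw [Matrix.one_apply_ne (by simp)]
    simp only [h2U_star V hV]
    simp only [h2U, mul_sub, zero_mul, zero_add, neg_mul, Finset.sum_sub_distrib]
    simp_rw [← mul_assoc]
    rw [Finset.sum_neg_distrib, Finset.sum_neg_distrib, ← Finset.sum_mul, h1, one_mul]
    simp
  · rw [Matrix.one_apply_ne (by simp)]
    simp only [h2U_star V hV]
    simp only [h2U, sub_mul, mul_neg, mul_zero, zero_add]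
    simp_rw [mul_assoc]
    rw [Finset.sum_neg_distrib, Finset.sum_sub_distrib, ← Finset.mul_sum, h1, mul_one]
    simp
  · simp only [h2U_star V hV]
    simp only [h2U, sub_mul, mul_sub, Finset.sum_sub_distrib]
    have e1 : ∑ x, V b * V x * (V x * V c) = V b * V c := by
      have : ∀ x, V b * V x * (V x * V c) = V b * (V x * V x) * V c := by
        intro x; simp only [mul_assoc]
      simp_rw [this]
      rw [← Finset.sum_mul, ← Finset.mul_sum, h1, mul_one]
    rw [e1]
    by_cases h : b = c
    · subst h
      rw [Matrix.one_apply_eq]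
      simp
    · rw [Matrix.one_apply_ne (by simpa using h)]
      simp [h]

/-- the coordinate projections -/
def h2e (a0 : A) (a : A) : Matrix (Option A) (Option A) R :=
  Matrix.diagonal (fun o => if o.getD a0 = a then 1 else 0)

theorem h2e_idem (a0 a : A) : (h2e a0 a : Matrix (Option A) (Option A) R) * h2e a0 a = h2e a0 a := by
  unfold h2e
  rw [Matrix.diagonal_mul_diagonal]
  congr 1
  funext o
  split_ifs <;> simp

omit [Fintype A] in
theorem h2e_star (a0 a : A) : star (h2e a0 a : Matrix (Option A) (Option A) R) = h2e a0 a := by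
  unfold h2e
  rw [Matrix.star_eq_conjTranspose, Matrix.diagonal_conjTranspose]
  congr 1
  funext o
  simp only [Pi.star_apply]
  split_ifs <;> simp

theorem h2e_sum (a0 : A) : ∑ a, (h2e a0 a : Matrix (Option A) (Option A) R) = 1 := by
  ext o o'
  rw [Matrix.sum_apply]
  by_cases h : o = o'
  · subst h
    simp [h2e]
  · rw [Matrix.one_apply_ne h]
    refine Finset.sum_eq_zero fun a _ => ?_
    rw [h2e, Matrix.diagonal_apply_ne _ h]

/-- the projective measurement -/
def h2P (V : A → R) (a0 a : A) : Matrix (Option A) (Option A) R := star (h2U V) * h2e a0 a * h2U V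

theorem h2P_idem (V : A → R) (hV : ∀ a, star (V a) = V a) (h1 : ∑ a, V a * V a = 1) (a0 a : A) :
    h2P V a0 a * h2P V a0 a = h2P V a0 a := by
  unfold h2P
  calc star (h2U V) * h2e a0 a * h2U V * (star (h2U V) * h2e a0 a * h2U V)
      = star (h2U V) * h2e a0 a * (h2U V * star (h2U V)) * h2e a0 a * h2U V := by
        simp only [mul_assoc]
    _ = star (h2U V) * (h2e a0 a * h2e a0 a) * h2U V := by
        rw [h2U_unit2 V hV h1, mul_one]; simp only [mul_assoc]
    _ = star (h2U V) * h2e a0 a * h2U V := by rw [h2e_idem]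

theorem h2P_star (V : A → R) (a0 a : A) : star (h2P V a0 a) = h2P V a0 a := by
  unfold h2P
  rw [star_mul, star_mul, star_star, h2e_star, mul_assoc]

theorem h2P_sum (V : A → R) (hV : ∀ a, star (V a) = V a) (h1 : ∑ a, V a * V a = 1) (a0 : A) :
    ∑ a, h2P V a0 a = 1 := by
  unfold h2P
  rw [← Finset.sum_mul, ← Finset.mul_sum, h2e_sum, mul_one, h2U_unit1 V hV h1]

theorem h2P_none (V : A → R) (hV : ∀ a, star (V a) = V a) (a0 a : A) :
    h2P V a0 a none none = V a * V a := by
  unfold h2P
  rw [Matrix.mul_apply, Fintype.sum_option]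
  have e0 : h2U V none none = 0 := rfl
  rw [e0, mul_zero, zero_add]
  have e1 : ∀ b : A, (star (h2U V) * h2e a0 a : Matrix (Option A) (Option A) R) none (some b)
      * h2U V (some b) none = (if b = a then V b * V b else 0) := by
    intro b
    rw [h2e, Matrix.mul_diagonal, h2U_star V hV]
    simp only [Option.getD_some]
    show V b * (if b = a then 1 else 0) * V b = _
    split_ifs <;> simp
  simp_rw [e1]
  simp

theorem h2P_comm (V : A → R) (a0 a : A) (T : R) (hT : ∀ b, Commute T (V b))
    (hV : ∀ a, star (V a) = V a) :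
    Matrix.diagonal (fun _ => T) * h2P V a0 a = h2P V a0 a * Matrix.diagonal (fun _ => T) := by
  have hd : ∀ M : Matrix (Option A) (Option A) R, (∀ o o', Commute T (M o o')) →
      Matrix.diagonal (fun _ => T) * M = M * Matrix.diagonal (fun _ => T) := by
    intro M hM
    ext o o'
    rw [Matrix.diagonal_mul, Matrix.mul_diagonal]
    exact hM o o'
  have hU : ∀ o o', Commute T (h2U V o o') := by
    intro o o'
    rcases o with _ | b <;> rcases o' with _ | c
    · exact Commute.zero_right T
    · exact (hT c).neg_right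
    · exact hT b
    · refine Commute.sub_right ?_ ((hT b).mul_right (hT c))
      split_ifs
      · exact Commute.one_right T
      · exact Commute.zero_right T
  have hUs : ∀ o o', Commute T (star (h2U V) o o') := by
    intro o o'
    rw [h2U_star V hV]
    rcases o with _ | b <;> rcases o' with _ | c
    · exact Commute.zero_right T
    · exact hT c
    · exact (hT b).neg_right
    · refine Commute.sub_right ?_ ((hT b).mul_right (hT c))
      split_ifs
      · exact Commute.one_right T
      · exact Commute.zero_right T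
  have he : ∀ o o', Commute T ((h2e a0 a : Matrix (Option A) (Option A) R) o o') := by
    intro o o'
    unfold h2e
    by_cases h : o = o'
    · subst h
      rw [Matrix.diagonal_apply_eq]
      split_ifs
      · exact Commute.one_right T
      · exact Commute.zero_right T
    · rw [Matrix.diagonal_apply_ne _ h]; exact Commute.zero_right T
  unfold h2P
  rw [← mul_assoc, ← mul_assoc, hd _ hUs, mul_assoc (star (h2U V)), hd _ he, ← mul_assoc,
    mul_assoc _ _ (h2U V), hd _ hU, ← mul_assoc]

end h2alg

/-- H2: one-sided Naimark dilation by a Halmos unitary -/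
theorem naimark_one (X A : Type) [Fintype A] [Nonempty A]
    (H : Type) [NormedAddCommGroup H] [InnerProductSpace ℂ H] [CompleteSpace H]
    (M : X → A → (H →L[ℂ] H)) (hM : Povm M) :
    ∃ (K : Type) (_ : NormedAddCommGroup K) (_ : InnerProductSpace ℂ K) (_ : CompleteSpace K)
      (J : H →ₗᵢ[ℂ] K) (θ : (H →L[ℂ] H) →⋆ₐ[ℂ] (K →L[ℂ] K)) (P : X → A → (K →L[ℂ] K)),
      (∀ T v, θ T (J v) = J (T v)) ∧ Pvm P ∧
      (∀ x a v w, ⟪J v, P x a (J w)⟫_ℂ = ⟪v, M x a w⟫_ℂ) ∧
      (∀ T, (∀ x a, Commute T (M x a)) → ∀ x a, Commute (θ T) (P x a)) := by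
  classical
  set a0 : A := Classical.arbitrary A
  set V : X → A → (H →L[ℂ] H) := fun x a => CFC.sqrt (M x a) with hVdef
  have hVV : ∀ x a, V x a * V x a = M x a := fun x a => CFC.sqrt_mul_sqrt_self (M x a) (hM.1 x a)
  have hVs : ∀ x a, star (V x a) = V x a := fun x a =>
    (IsSelfAdjoint.of_nonneg (CFC.sqrt_nonneg (M x a))).star_eq
  have hV1 : ∀ x, ∑ a, V x a * V x a = 1 := by
    intro x
    simp_rw [hVV]
    exact hM.2 x
  refine ⟨h2K (Option A) H, inferInstance, inferInstance, inferInstance, h2J none,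
    h2theta (Option A) H, fun x a => h2blk (h2P (V x) a0 a), ?_, ⟨?_, ?_⟩, ?_, ?_⟩
  · intro T v
    exact h2theta_J none T v
  · intro x a
    refine ⟨?_, ?_⟩
    · show h2blk (h2P (V x) a0 a) * h2blk (h2P (V x) a0 a) = h2blk (h2P (V x) a0 a)
      rw [← h2blk_mul, h2P_idem (V x) (hVs x) (hV1 x)]
    · show star (h2blk (h2P (V x) a0 a)) = h2blk (h2P (V x) a0 a)
      rw [← h2blk_star, h2P_star]
  · intro x
    rw [← h2blk_sum, h2P_sum (V x) (hVs x) (hV1 x), h2blk_one]
  · intro x a v w
    rw [h2J_inner, h2P_none (V x) (hVs x), hVV]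
  · intro T hT x a
    have hTV : ∀ b, Commute T (V x b) := by
      intro b
      have h1 : Commute (M x b) T := (hT x b).symm
      have h2 : Commute (CFC.sqrt (M x b)) T := by
        exact h1.cfcₙ_nnreal _
      exact h2.symm
    show h2blk (Matrix.diagonal (fun _ => T)) * h2blk (h2P (V x) a0 a) =
      h2blk (h2P (V x) a0 a) * h2blk (Matrix.diagonal (fun _ => T))
    rw [← h2blk_mul, ← h2blk_mul, h2P_comm (V x) a0 a T hTV (hVs x)]

end Pool.Agent.H500R2.PR
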