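import Pool.Agent.H500R2.PR.Basic
import Pool.Agent.H768R2.FQ.Tens

set_option autoImplicit false
open scoped InnerProductSpace TensorProduct
namespace Pool.Agent.H500R2.PR

namespace TH6

open UniformSpace Pool.Agent.H768R2.FQ

variable {H1 H2 : Type} [NormedAddCommGroup H1] [InnerProductSpace ℂ H1]
  [NormedAddCommGroup H2] [InnerProductSpace ℂ H2]

variable (H1 H2) in
/-- the completed tensor product -/
abbrev KK := Completion (H1 ⊗[ℂ] H2)

variable (H2) in
/-- first amplification -/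
noncomputable def A1 (T : H1 →L[ℂ] H1) : KK H1 H2 →L[ℂ] KK H1 H2 :=
  ((LinearMap.rTensor H2 (T : H1 →ₗ[ℂ] H1)).mkContinuous ‖T‖ (norm_rT_le T)).completion

variable (H1) in
/-- second amplification -/
noncomputable def A2 (T : H2 →L[ℂ] H2) : KK H1 H2 →L[ℂ] KK H1 H2 :=
  ((LinearMap.lTensor H1 (T : H2 →ₗ[ℂ] H2)).mkContinuous ‖T‖ (norm_lT_le T)).completion

/-- elementary tensors -/
noncomputable def tt (x : H1) (y : H2) : KK H1 H2 := ((x ⊗ₜ[ℂ] y : H1 ⊗[ℂ] H2) : KK H1 H2)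

theorem A1_tt (T : H1 →L[ℂ] H1) (x : H1) (y : H2) : A1 H2 T (tt x y) = tt (T x) y := by
  unfold A1 tt
  rw [ContinuousLinearMap.completion_apply_coe]
  rfl

theorem A2_tt (T : H2 →L[ℂ] H2) (x : H1) (y : H2) : A2 H1 T (tt x y) = tt x (T y) := by
  unfold A2 tt
  rw [ContinuousLinearMap.completion_apply_coe]
  rfl

theorem inner_tt (x x' : H1) (y y' : H2) :
    ⟪tt x y, tt x' y'⟫_ℂ = ⟪x, x'⟫_ℂ * ⟪y, y'⟫_ℂ := by
  unfold tt
  rw [Completion.inner_coe, TensorProduct.inner_tmul]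

theorem norm_tt (x : H1) (y : H2) : ‖tt x y‖ = ‖x‖ * ‖y‖ := by
  unfold tt
  rw [Completion.norm_coe, TensorProduct.norm_tmul]

theorem tt_add_left (x x' : H1) (y : H2) : tt (x + x') y = tt x y + tt x' y := by
  unfold tt
  rw [TensorProduct.add_tmul, Completion.coe_add]

theorem tt_add_right (x : H1) (y y' : H2) : tt x (y + y') = tt x y + tt x y' := by
  unfold tt
  rw [TensorProduct.tmul_add, Completion.coe_add]

theorem tt_smul_left (c : ℂ) (x : H1) (y : H2) : tt (c • x) y = c • tt x y := by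
  unfold tt
  rw [← TensorProduct.smul_tmul', Completion.coe_smul]

theorem tt_smul_right (c : ℂ) (x : H1) (y : H2) : tt x (c • y) = c • tt x y := by
  unfold tt
  rw [TensorProduct.tmul_smul, Completion.coe_smul]

/-- induction on elements of the completed tensor product -/
theorem ind {p : KK H1 H2 → Prop} (z : KK H1 H2) (hc : IsClosed {z | p z}) (h0 : p 0)
    (ht : ∀ x y, p (tt x y)) (ha : ∀ a b, p a → p b → p (a + b)) : p z := by
  refine Completion.induction_on z hc fun w => ?_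
  induction w using TensorProduct.induction_on with
  | zero => rw [Completion.coe_zero]; exact h0
  | tmul x y => exact ht x y
  | add a b h1 h2 => rw [Completion.coe_add]; exact ha _ _ h1 h2

theorem ext_tt {A B : KK H1 H2 →L[ℂ] KK H1 H2} (h : ∀ x y, A (tt x y) = B (tt x y)) : A = B := by
  ext z
  refine ind z (isClosed_eq A.continuous B.continuous) (by rw [map_zero, map_zero]) h ?_
  intro a b ha hb
  rw [map_add, map_add, ha, hb]

theorem adj_tt {A B : KK H1 H2 →L[ℂ] KK H1 H2}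
    (h : ∀ x y x' y', ⟪A (tt x y), tt x' y'⟫_ℂ = ⟪tt x y, B (tt x' y')⟫_ℂ) : A = star B := by
  rw [ContinuousLinearMap.star_eq_adjoint, ContinuousLinearMap.eq_adjoint_iff]
  intro z w
  refine ind (p := fun z => ⟪A z, w⟫_ℂ = ⟪z, B w⟫_ℂ) z ?_ ?_ ?_ ?_
  · exact isClosed_eq (A.continuous.inner continuous_const) (continuous_id.inner continuous_const)
  · rw [map_zero, inner_zero_left, inner_zero_left]
  · intro x y
    refine ind (p := fun w => ⟪A (tt x y), w⟫_ℂ = ⟪tt x y, B w⟫_ℂ) w ?_ ?_ ?_ ?_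
    · exact isClosed_eq (continuous_const.inner continuous_id)
        (continuous_const.inner B.continuous)
    · rw [map_zero, inner_zero_right, inner_zero_right]
    · intro x' y'
      exact h x y x' y'
    · intro a b ha hb
      rw [map_add, inner_add_right, inner_add_right, ha, hb]
  · intro a b ha hb
    rw [map_add, inner_add_left, inner_add_left, ha, hb]

variable [CompleteSpace H1] [CompleteSpace H2]

variable (H1 H2) in
/-- the first representation -/
noncomputable def θ1 : (H1 →L[ℂ] H1) →⋆ₐ[ℂ] (KK H1 H2 →L[ℂ] KK H1 H2) where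
  toFun := A1 H2
  map_one' := ext_tt fun x y => by rw [A1_tt]; rfl
  map_mul' S T := ext_tt fun x y => by
    rw [A1_tt]
    show _ = A1 H2 S (A1 H2 T (tt x y))
    rw [A1_tt, A1_tt]; rfl
  map_zero' := ext_tt fun x y => by
    rw [A1_tt]
    show tt (0 : H1) y = 0
    have := tt_smul_left (0 : ℂ) (0 : H1) y
    rwa [zero_smul, zero_smul] at this
  map_add' S T := ext_tt fun x y => by
    show A1 H2 (S + T) (tt x y) = A1 H2 S (tt x y) + A1 H2 T (tt x y)
    rw [A1_tt, A1_tt, A1_tt, ← tt_add_left]; rfl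
  commutes' r := ext_tt fun x y => by
    rw [A1_tt]
    show tt (r • x) y = r • tt x y
    rw [tt_smul_left]
  map_star' S := adj_tt fun x y x' y' => by
    rw [A1_tt, A1_tt, inner_tt, inner_tt, ContinuousLinearMap.star_eq_adjoint,
      ContinuousLinearMap.adjoint_inner_left]

variable (H1 H2) in
/-- the second representation -/
noncomputable def θ2 : (H2 →L[ℂ] H2) →⋆ₐ[ℂ] (KK H1 H2 →L[ℂ] KK H1 H2) where
  toFun := A2 H1
  map_one' := ext_tt fun x y => by rw [A2_tt]; rfl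
  map_mul' S T := ext_tt fun x y => by
    rw [A2_tt]
    show _ = A2 H1 S (A2 H1 T (tt x y))
    rw [A2_tt, A2_tt]; rfl
  map_zero' := ext_tt fun x y => by
    rw [A2_tt]
    show tt x (0 : H2) = 0
    have := tt_smul_right (0 : ℂ) x (0 : H2)
    rwa [zero_smul, zero_smul] at this
  map_add' S T := ext_tt fun x y => by
    show A2 H1 (S + T) (tt x y) = A2 H1 S (tt x y) + A2 H1 T (tt x y)
    rw [A2_tt, A2_tt, A2_tt, ← tt_add_right]; rfl
  commutes' r := ext_tt fun x y => by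
    rw [A2_tt]
    show tt x (r • y) = r • tt x y
    rw [tt_smul_right]
  map_star' S := adj_tt fun x y x' y' => by
    rw [A2_tt, A2_tt, inner_tt, inner_tt, ContinuousLinearMap.star_eq_adjoint,
      ContinuousLinearMap.adjoint_inner_left]

end TH6

open TH6 in
/-- H6: tensor product of two Hilbert spaces with the two commuting amplifications -/
theorem tensor_two (H1 H2 : Type) [NormedAddCommGroup H1] [InnerProductSpace ℂ H1]
    [CompleteSpace H1] [NormedAddCommGroup H2] [InnerProductSpace ℂ H2] [CompleteSpace H2] :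
    ∃ (K : Type) (_ : NormedAddCommGroup K) (_ : InnerProductSpace ℂ K) (_ : CompleteSpace K)
      (θ1 : (H1 →L[ℂ] H1) →⋆ₐ[ℂ] (K →L[ℂ] K)) (θ2 : (H2 →L[ℂ] H2) →⋆ₐ[ℂ] (K →L[ℂ] K)),
      (∀ S T, Commute (θ1 S) (θ2 T)) ∧
      ∀ (ψ1 : H1) (ψ2 : H2), ‖ψ1‖ = 1 → ‖ψ2‖ = 1 → ∃ Ψ : K, ‖Ψ‖ = 1 ∧
        (∀ S, ⟪Ψ, θ1 S Ψ⟫_ℂ = ⟪ψ1, S ψ1⟫_ℂ) ∧ (∀ T, ⟪Ψ, θ2 T Ψ⟫_ℂ = ⟪ψ2, T ψ2⟫_ℂ) := by
  refine ⟨KK H1 H2, inferInstance, inferInstance, inferInstance, TH6.θ1 H1 H2, TH6.θ2 H1 H2,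
    ?_, ?_⟩
  · intro S T
    refine ext_tt fun x y => ?_
    show A1 H2 S (A2 H1 T (tt x y)) = A2 H1 T (A1 H2 S (tt x y))
    rw [A1_tt, A2_tt, A1_tt, A2_tt]
  · intro ψ1 ψ2 h1 h2
    refine ⟨tt ψ1 ψ2, by rw [norm_tt, h1, h2, mul_one], ?_, ?_⟩
    · intro S
      show ⟪tt ψ1 ψ2, A1 H2 S (tt ψ1 ψ2)⟫_ℂ = _
      rw [A1_tt, inner_tt, inner_self_eq_norm_sq_to_K ψ2, h2]
      simp
    · intro T
      show ⟪tt ψ1 ψ2, A2 H1 T (tt ψ1 ψ2)⟫_ℂ = _
      rw [A2_tt, inner_tt, inner_self_eq_norm_sq_to_K ψ1, h1]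
      simp

end Pool.Agent.H500R2.PR
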