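import Pool.Agent.H500R2.PR.Basic
set_option autoImplicit false
open scoped InnerProductSpace
namespace Pool.Agent.H500R2.PR

section K
variable {X Y : Type} [Fintype X] [Fintype Y]

private theorem K0_norm {X H : Type} [Fintype X] [NormedAddCommGroup H] [InnerProductSpace ℂ H]
    (c : X → ℝ) (h : X → H) :
    ‖∑ x, ((c x : ℝ) : ℂ) • h x‖ ^ 2 = ∑ x, ∑ x', c x * c x' * (⟪h x, h x'⟫_ℂ).re := by
  rw [← inner_self_eq_norm_sq (𝕜 := ℂ), sum_inner]
  rw [map_sum]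
  refine Finset.sum_congr rfl fun x _ => ?_
  rw [inner_sum, map_sum]
  refine Finset.sum_congr rfl fun x' _ => ?_
  rw [inner_smul_left, inner_smul_right, Complex.conj_ofReal, ← mul_assoc, ← Complex.ofReal_mul]
  exact Complex.re_ofReal_mul _ _

private theorem K0_one {X H : Type} [Fintype X] [NormedAddCommGroup H] [InnerProductSpace ℂ H]
    (p : X → ℝ) (hp : ∀ x, 0 ≤ p x) (h : X → H) :
    ∑ x, p x * ‖h x‖ ^ 2 - (∑ x, p x) * ‖∑ x, ((p x / ∑ x, p x : ℝ) : ℂ) • h x‖ ^ 2 =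
      (1 / 2) * ∑ x, ∑ x', (p x * p x' / ∑ x, p x) * ‖h x - h x'‖ ^ 2 := by
  rcases eq_or_ne (∑ x, p x) 0 with hm | hm
  · have h0 : ∀ x, p x = 0 := fun x =>
      (Finset.sum_eq_zero_iff_of_nonneg fun i _ => hp i).1 hm x (Finset.mem_univ x)
    simp [h0]
  · set m := ∑ x, p x with hmdef
    have h1 : m * ‖∑ x, ((p x / m : ℝ) : ℂ) • h x‖ ^ 2 =
        m⁻¹ * ∑ x, ∑ x', p x * p x' * (⟪h x, h x'⟫_ℂ).re := by
      rw [K0_norm, Finset.mul_sum, Finset.mul_sum]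
      refine Finset.sum_congr rfl fun x _ => ?_
      rw [Finset.mul_sum, Finset.mul_sum]
      refine Finset.sum_congr rfl fun x' _ => ?_
      field_simp
    have h2 : ∀ x x', (p x * p x' / m) * ‖h x - h x'‖ ^ 2 =
        m⁻¹ * (p x * ‖h x‖ ^ 2 * p x') + m⁻¹ * (p x * (p x' * ‖h x'‖ ^ 2)) -
          2 * (m⁻¹ * (p x * p x' * (⟪h x, h x'⟫_ℂ).re)) := by
      intro x x'
      have h3 : ‖h x - h x'‖ ^ 2 = ‖h x‖ ^ 2 - 2 * (⟪h x, h x'⟫_ℂ).re + ‖h x'‖ ^ 2 :=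
        norm_sub_sq (𝕜 := ℂ) (h x) (h x')
      rw [h3]
      ring
    rw [h1]
    simp only [h2]
    simp only [Finset.sum_add_distrib, Finset.sum_sub_distrib, ← Finset.mul_sum, ← Finset.sum_mul]
    rw [← hmdef]
    field_simp
    ring

/-- K0 -/
theorem DX_eq {H : Type} [NormedAddCommGroup H] [InnerProductSpace ℂ H]
    (μ : X → Y → ℝ) (hμ : ∀ x y, 0 ≤ μ x y) (h : X → H) :
    DX μ h = (1 / 2) * ∑ y, ∑ x, ∑ x', (μ x y * μ x' y / mY μ y) * ‖h x - h x'‖ ^ 2 := by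
  unfold DX
  have h1 : ∑ x, mX μ x * ‖h x‖ ^ 2 = ∑ y, ∑ x, μ x y * ‖h x‖ ^ 2 := by
    rw [Finset.sum_comm]
    refine Finset.sum_congr rfl fun x _ => ?_
    rw [mX, Finset.sum_mul]
  rw [h1, ← Finset.sum_sub_distrib, Finset.mul_sum]
  refine Finset.sum_congr rfl fun y _ => ?_
  exact K0_one (fun x => μ x y) (fun x => hμ x y) h

/-- K0 -/
theorem DX_nonneg {H : Type} [NormedAddCommGroup H] [InnerProductSpace ℂ H]
    (μ : X → Y → ℝ) (hμ : ∀ x y, 0 ≤ μ x y) (h : X → H) : 0 ≤ DX μ h := by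
  rw [DX_eq μ hμ h]
  refine mul_nonneg (by norm_num) ?_
  refine Finset.sum_nonneg fun y _ => Finset.sum_nonneg fun x _ => Finset.sum_nonneg fun x' _ => ?_
  refine mul_nonneg (div_nonneg (mul_nonneg (hμ x y) (hμ x' y)) ?_) (by positivity)
  exact Finset.sum_nonneg fun x _ => hμ x y

end K

end Pool.Agent.H500R2.PR
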