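import Pool.Agent.H500R2.PR.Basic

set_option autoImplicit false

namespace Pool.Agent.H500R2.PR

variable {X Y : Type} [Fintype X] [Fintype Y]

private theorem K1_mX_nonneg (μ : X → Y → ℝ) (hμ : ∀ x y, 0 ≤ μ x y) (x : X) : 0 ≤ mX μ x :=
  Finset.sum_nonneg fun y _ => hμ x y

private theorem K1_mY_nonneg (μ : X → Y → ℝ) (hμ : ∀ x y, 0 ≤ μ x y) (y : Y) : 0 ≤ mY μ y :=
  Finset.sum_nonneg fun x _ => hμ x y

private theorem K1_pos (μ : X → Y → ℝ) (hμ : ∀ x y, 0 ≤ μ x y) {n : ℕ} (s : Fin n → X)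
    (t : Fin n → Y) (hst : pw μ s t ≠ 0) (j : Fin n) : 0 < μ (s j) (t j) := by
  have h := (Finset.prod_ne_zero_iff.1 hst) j (Finset.mem_univ j)
  exact lt_of_le_of_ne (hμ _ _) (Ne.symm h)

/-- K1 -/
theorem kA_nonneg (μ : X → Y → ℝ) (hμ : ∀ x y, 0 ≤ μ x y) {n : ℕ} (i : Fin n) (s : Fin n → X)
    (t : Fin n → Y) (u : X) (x : Fin n → X) : 0 ≤ kA μ i s t u x := by
  classical
  unfold kA
  refine Finset.prod_nonneg fun j _ => ?_
  split_ifs
  · exact div_nonneg (hμ _ _) (K1_mY_nonneg μ hμ _)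
  · exact zero_le_one
  · exact le_rfl
  · exact zero_le_one
  · exact le_rfl

/-- K1 -/
theorem kB_nonneg (μ : X → Y → ℝ) (hμ : ∀ x y, 0 ≤ μ x y) {n : ℕ} (i : Fin n) (s : Fin n → X)
    (t : Fin n → Y) (v : Y) (y : Fin n → Y) : 0 ≤ kB μ i s t v y := by
  classical
  unfold kB
  refine Finset.prod_nonneg fun j _ => ?_
  split_ifs
  · exact zero_le_one
  · exact le_rfl
  · exact zero_le_one
  · exact le_rfl
  · exact div_nonneg (hμ _ _) (K1_mX_nonneg μ hμ _)

open Classical in
/-- K1 -/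
theorem kA_sum (μ : X → Y → ℝ) (hμ : ∀ x y, 0 ≤ μ x y) {n : ℕ} (i : Fin n) (s : Fin n → X)
    (t : Fin n → Y) (hst : pw μ s t ≠ 0) (u : X) : ∑ x, kA μ i s t u x = 1 := by
  unfold kA
  have h := (Finset.prod_univ_sum (fun _ : Fin n => (Finset.univ : Finset X))
    (fun (j : Fin n) (a : X) => (if j < i then μ a (t j) / mY μ (t j)
      else if j = i then (if a = u then 1 else 0) else (if a = s j then 1 else 0) : ℝ))).symm
  rw [Fintype.piFinset_univ] at h
  refine h.trans ?_
  refine Finset.prod_eq_one fun j _ => ?_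
  by_cases h1 : j < i
  · simp only [h1, if_true]
    rw [← Finset.sum_div]
    have h2 : 0 < μ (s j) (t j) := K1_pos μ hμ s t hst j
    have h3 : μ (s j) (t j) ≤ mY μ (t j) :=
      Finset.single_le_sum (f := fun x => μ x (t j)) (fun x _ => hμ x (t j)) (Finset.mem_univ (s j))
    exact div_self (lt_of_lt_of_le h2 h3).ne'
  · simp only [h1, if_false]
    by_cases h2 : j = i
    · simp only [h2, if_true]
      rw [Finset.sum_ite_eq']
      simp
    · simp only [h2, if_false]
      rw [Finset.sum_ite_eq']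
      simp

open Classical in
/-- K1 -/
theorem kB_sum (μ : X → Y → ℝ) (hμ : ∀ x y, 0 ≤ μ x y) {n : ℕ} (i : Fin n) (s : Fin n → X)
    (t : Fin n → Y) (hst : pw μ s t ≠ 0) (v : Y) : ∑ y, kB μ i s t v y = 1 := by
  unfold kB
  have h := (Finset.prod_univ_sum (fun _ : Fin n => (Finset.univ : Finset Y))
    (fun (j : Fin n) (a : Y) => (if j < i then (if a = t j then 1 else 0)
      else if j = i then (if a = v then 1 else 0) else μ (s j) a / mX μ (s j) : ℝ))).symm
  rw [Fintype.piFinset_univ] at h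
  refine h.trans ?_
  refine Finset.prod_eq_one fun j _ => ?_
  by_cases h1 : j < i
  · simp only [h1, if_true]
    rw [Finset.sum_ite_eq']
    simp
  · simp only [h1, if_false]
    by_cases h2 : j = i
    · simp only [h2, if_true]
      rw [Finset.sum_ite_eq']
      simp
    · simp only [h2, if_false]
      rw [← Finset.sum_div]
      have h2 : 0 < μ (s j) (t j) := K1_pos μ hμ s t hst j
      have h3 : μ (s j) (t j) ≤ mX μ (s j) :=
        Finset.single_le_sum (f := fun y => μ (s j) y) (fun y _ => hμ (s j) y)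
          (Finset.mem_univ (t j))
      exact div_self (lt_of_lt_of_le h2 h3).ne'

end Pool.Agent.H500R2.PR
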