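import Pool.Agent.H500R2.PR.Basic

set_option autoImplicit false
open scoped InnerProductSpace

namespace Pool.Agent.H500R2.PR

variable {X Y : Type} [Fintype X] [Fintype Y]

private theorem K2_prod_sum {n : ℕ} (F : Fin n → X → Y → ℝ) :
    ∑ s : Fin n → X, ∑ t : Fin n → Y, ∏ j, F j (s j) (t j) = ∏ j, ∑ a, ∑ b, F j a b := by
  classical
  have h1 : ∀ s : Fin n → X, ∑ t : Fin n → Y, ∏ j, F j (s j) (t j) = ∏ j, ∑ b, F j (s j) b := by
    intro s
    rw [Finset.prod_univ_sum (fun _ => Finset.univ) (fun j b => F j (s j) b)]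
    rw [Fintype.piFinset_univ]
  simp only [h1]
  rw [Finset.prod_univ_sum (fun _ => Finset.univ) (fun j a => ∑ b, F j a b)]
  rw [Fintype.piFinset_univ]

private theorem K2_mY_zero (μ : X → Y → ℝ) (hμ : ∀ x y, 0 ≤ μ x y) (x : X) (y : Y)
    (h : mY μ y = 0) : μ x y = 0 :=
  (Finset.sum_eq_zero_iff_of_nonneg (fun x _ => hμ x y)).mp h x (Finset.mem_univ x)

private theorem K2_mX_zero (μ : X → Y → ℝ) (hμ : ∀ x y, 0 ≤ μ x y) (x : X) (y : Y)
    (h : mX μ x = 0) : μ x y = 0 :=
  (Finset.sum_eq_zero_iff_of_nonneg (fun y _ => hμ x y)).mp h y (Finset.mem_univ y)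

open Classical in
/-- K2 -/
theorem k_joint (μ : X → Y → ℝ) (hμ : ∀ x y, 0 ≤ μ x y) (hμ1 : ∑ x, ∑ y, μ x y = 1)
    {n : ℕ} (i : Fin n) (u : X) (v : Y) (x : Fin n → X) (y : Fin n → Y) :
    ∑ s : Fin n → X, ∑ t : Fin n → Y, pw μ s t * (μ u v * kA μ i s t u x * kB μ i s t v y) =
      if x i = u ∧ y i = v then pw μ x y else 0 := by
  classical
  let F : Fin n → X → Y → ℝ := fun j a b =>
    μ a b * (if j < i then μ (x j) b / mY μ b
      else if j = i then (if x j = u then 1 else 0) else (if x j = a then 1 else 0)) *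
      (if j < i then (if y j = b then 1 else 0)
      else if j = i then (if y j = v then 1 else 0) else μ a (y j) / mX μ a)
  have h1 : ∀ (s : Fin n → X) (t : Fin n → Y),
      pw μ s t * (μ u v * kA μ i s t u x * kB μ i s t v y) = μ u v * ∏ j, F j (s j) (t j) := by
    intro s t
    simp only [F, Finset.prod_mul_distrib, pw, kA, kB]
    ring
  simp only [h1, ← Finset.mul_sum]
  rw [K2_prod_sum F]
  have hlt : ∀ j, j < i → ∑ a, ∑ b, F j a b = μ (x j) (y j) := by
    intro j hj
    simp only [F, if_pos hj]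
    rw [Finset.sum_comm]
    rw [Finset.sum_eq_single (y j)]
    · simp only [if_true, mul_one]
      rw [← Finset.sum_mul]
      change mY μ (y j) * (μ (x j) (y j) / mY μ (y j)) = _
      by_cases h0 : mY μ (y j) = 0
      · rw [h0, K2_mY_zero μ hμ (x j) (y j) h0]; simp
      · field_simp
    · intro b _ hb
      refine Finset.sum_eq_zero fun a _ => ?_
      rw [if_neg (Ne.symm hb), mul_zero]
    · intro h; exact absurd (Finset.mem_univ _) h
  have hgt : ∀ j, i < j → ∑ a, ∑ b, F j a b = μ (x j) (y j) := by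
    intro j hj
    have hn1 : ¬ j < i := not_lt.mpr hj.le
    have hn2 : ¬ j = i := ne_of_gt hj
    simp only [F, if_neg hn1, if_neg hn2]
    rw [Finset.sum_eq_single (x j)]
    · simp only [if_true, mul_one]
      rw [← Finset.sum_mul]
      change mX μ (x j) * (μ (x j) (y j) / mX μ (x j)) = _
      by_cases h0 : mX μ (x j) = 0
      · rw [h0, K2_mX_zero μ hμ (x j) (y j) h0]; simp
      · field_simp
    · intro a _ ha
      refine Finset.sum_eq_zero fun b _ => ?_
      rw [if_neg (Ne.symm ha), mul_zero, zero_mul]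
    · intro h; exact absurd (Finset.mem_univ _) h
  have heq : ∑ a, ∑ b, F i a b = (if x i = u then 1 else 0) * (if y i = v then 1 else 0) := by
    simp only [F, lt_irrefl, if_false, if_true]
    simp only [← Finset.sum_mul]
    rw [hμ1, one_mul]
  rw [← Finset.mul_prod_erase Finset.univ _ (Finset.mem_univ i), heq]
  have hrest : ∏ j ∈ Finset.univ.erase i, ∑ a, ∑ b, F j a b =
      ∏ j ∈ Finset.univ.erase i, μ (x j) (y j) := by
    refine Finset.prod_congr rfl fun j hj => ?_
    rcases lt_or_gt_of_ne (Finset.ne_of_mem_erase hj) with h | h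
    · exact hlt j h
    · exact hgt j h
  rw [hrest]
  by_cases h : x i = u ∧ y i = v
  · rw [if_pos h, if_pos h.1, if_pos h.2, one_mul, one_mul, ← h.1, ← h.2]
    exact Finset.mul_prod_erase Finset.univ (fun j => μ (x j) (y j)) (Finset.mem_univ i)
  · rw [if_neg h]
    by_cases h1 : x i = u
    · have h2 : ¬ y i = v := fun h2 => h ⟨h1, h2⟩
      rw [if_neg h2]; simp
    · rw [if_neg h1]; simp

end Pool.Agent.H500R2.PR
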