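import Pool.Agent.H500R2.PR.Basic
set_option autoImplicit false
open scoped InnerProductSpace
namespace Pool.Agent.H500R2.PR

section k3
variable {X Y : Type} [Fintype X] [Fintype Y]

omit [Fintype Y] in
theorem k3_sum_cons {M : Type} [AddCommMonoid M] (n : ℕ) (F : (Fin (n+1) → X) → M) :
    ∑ x, F x = ∑ a, ∑ x : Fin n → X, F (Fin.cons a x) := by
  rw [← (Fin.consEquiv (fun _ : Fin (n+1) => X)).sum_comp, Fintype.sum_prod_type]
  rfl

omit [Fintype X] [Fintype Y] in
theorem k3_pw_cons (μ : X → Y → ℝ) {n : ℕ} (a : X) (s : Fin n → X) (b : Y) (t : Fin n → Y) :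
    pw μ (Fin.cons a s : Fin (n+1) → X) (Fin.cons b t : Fin (n+1) → Y) = μ a b * pw μ s t := by
  unfold pw
  rw [Fin.prod_univ_succ]
  simp

theorem k3_pw_sum_right (μ : X → Y → ℝ) (n : ℕ) (x : Fin n → X) :
    ∑ y : Fin n → Y, pw μ x y = ∏ j, mX μ (x j) := by
  classical
  unfold pw mX
  rw [Finset.prod_univ_sum]
  refine Finset.sum_congr ?_ fun _ _ => rfl
  ext y; simp

open Classical in
omit [Fintype Y] in
theorem k3_kA_zero (μ : X → Y → ℝ) {n : ℕ} (a : X) (s : Fin n → X) (b : Y) (t : Fin n → Y)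
    (u c : X) (x : Fin n → X) :
    kA μ 0 (Fin.cons a s : Fin (n+1) → X) (Fin.cons b t : Fin (n+1) → Y) u (Fin.cons c x) =
      (if c = u then 1 else 0) * (if x = s then 1 else 0) := by
  unfold kA
  rw [Fin.prod_univ_succ]
  congr 1
  simp only [Fin.cons_succ, Fin.not_lt_zero, if_false, Fin.succ_ne_zero]
  rw [Fintype.prod_boole]
  congr 1
  exact propext funext_iff.symm

omit [Fintype Y] in
theorem k3_kA_succ (μ : X → Y → ℝ) {n : ℕ} (i : Fin n) (a : X) (s : Fin n → X) (b : Y)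
    (t : Fin n → Y) (u c : X) (x : Fin n → X) :
    kA μ i.succ (Fin.cons a s : Fin (n+1) → X) (Fin.cons b t : Fin (n+1) → Y) u (Fin.cons c x) =
      (μ c b / mY μ b) * kA μ i s t u x := by
  unfold kA
  rw [Fin.prod_univ_succ]
  congr 1
  refine Finset.prod_congr rfl fun j _ => ?_
  simp only [Fin.cons_succ, Fin.succ_lt_succ_iff, Fin.succ_inj]
  rfl

/-- K3 -/
theorem tele_A {H : Type} [NormedAddCommGroup H] [InnerProductSpace ℂ H]
    (μ : X → Y → ℝ) (hμ : ∀ x y, 0 ≤ μ x y) (hμ1 : ∑ x, ∑ y, μ x y = 1)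
    (n : ℕ) (f : (Fin n → X) → H) :
    ∑ i : Fin n, ∑ s : Fin n → X, ∑ t : Fin n → Y,
      pw μ s t * DX μ (fun u => ∑ x, ((kA μ i s t u x : ℝ) : ℂ) • f x) ≤
      ∑ x, (∏ j, mX μ (x j)) * ‖f x‖ ^ 2 := by
  classical
  have hmX : ∀ x, 0 ≤ mX μ x := fun x => Finset.sum_nonneg fun y _ => hμ x y
  have hmY : ∀ y, 0 ≤ mY μ y := fun y => Finset.sum_nonneg fun x _ => hμ x y
  induction n with
  | zero =>
    rw [Finset.univ_eq_empty, Finset.sum_empty]
    exact Finset.sum_nonneg fun x _ => mul_nonneg (Finset.prod_nonneg fun j _ => hmX _) (by positivity)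
  | succ n ih =>
    set F : Y → (Fin n → X) → H := fun b x => ∑ c, ((μ c b / mY μ b : ℝ) : ℂ) • f (Fin.cons c x) with hF
    rw [Fin.sum_univ_succ]
    -- the term `i = 0`
    have h0 : ∑ s : Fin (n+1) → X, ∑ t : Fin (n+1) → Y,
        pw μ s t * DX μ (fun u => ∑ x, ((kA μ 0 s t u x : ℝ) : ℂ) • f x) =
        ∑ s : Fin n → X, (∏ j, mX μ (s j)) *
          (∑ u, mX μ u * ‖f (Fin.cons u s)‖ ^ 2 - ∑ b, mY μ b * ‖F b s‖ ^ 2) := by
      rw [k3_sum_cons]
      have e1 : ∀ (a : X) (s : Fin n → X), ∑ t : Fin (n+1) → Y,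
          pw μ (Fin.cons a s : Fin (n+1) → X) t *
            DX μ (fun u => ∑ x, ((kA μ 0 (Fin.cons a s : Fin (n+1) → X) t u x : ℝ) : ℂ) • f x) =
          (∑ b, μ a b) * ((∏ j, mX μ (s j)) * DX μ (fun u => f (Fin.cons u s))) := by
        intro a s
        rw [k3_sum_cons, Finset.sum_mul]
        refine Finset.sum_congr rfl fun b _ => ?_
        rw [← k3_pw_sum_right, Finset.sum_mul, Finset.mul_sum]
        refine Finset.sum_congr rfl fun t _ => ?_
        rw [k3_pw_cons, mul_assoc]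
        congr 2
        congr 1
        funext u
        rw [k3_sum_cons]
        rw [Finset.sum_eq_single u]
        · rw [Finset.sum_eq_single s]
          · rw [k3_kA_zero]; simp
          · intro x _ hx
            rw [k3_kA_zero, if_neg hx]; simp
          · intro h; exact absurd (Finset.mem_univ _) h
        · intro c _ hc
          refine Finset.sum_eq_zero fun x _ => ?_
          rw [k3_kA_zero, if_neg hc]; simp
        · intro h; exact absurd (Finset.mem_univ _) h
      simp_rw [e1]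
      simp_rw [← Finset.mul_sum]
      rw [← Finset.sum_mul, hμ1, one_mul]
      rfl
    -- the other terms
    have h1 : ∑ i : Fin n, ∑ s : Fin (n+1) → X, ∑ t : Fin (n+1) → Y,
        pw μ s t * DX μ (fun u => ∑ x, ((kA μ i.succ s t u x : ℝ) : ℂ) • f x) =
        ∑ b, mY μ b * ∑ i : Fin n, ∑ s : Fin n → X, ∑ t : Fin n → Y,
          pw μ s t * DX μ (fun u => ∑ x, ((kA μ i s t u x : ℝ) : ℂ) • F b x) := by
      have e1 : ∀ (i : Fin n) (a : X) (s : Fin n → X), ∑ t : Fin (n+1) → Y,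
          pw μ (Fin.cons a s : Fin (n+1) → X) t *
            DX μ (fun u => ∑ x, ((kA μ i.succ (Fin.cons a s : Fin (n+1) → X) t u x : ℝ) : ℂ) • f x) =
          ∑ b, μ a b * ∑ t : Fin n → Y, pw μ s t *
            DX μ (fun u => ∑ x, ((kA μ i s t u x : ℝ) : ℂ) • F b x) := by
        intro i a s
        rw [k3_sum_cons]
        refine Finset.sum_congr rfl fun b _ => ?_
        rw [Finset.mul_sum]
        refine Finset.sum_congr rfl fun t _ => ?_
        rw [k3_pw_cons, mul_assoc]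
        congr 2
        congr 1
        funext u
        rw [k3_sum_cons, Finset.sum_comm]
        refine Finset.sum_congr rfl fun x _ => ?_
        rw [hF]
        simp only
        rw [Finset.smul_sum]
        refine Finset.sum_congr rfl fun c _ => ?_
        rw [k3_kA_succ, smul_smul]
        congr 1
        push_cast; ring
      have e2 : ∀ i : Fin n, ∑ s : Fin (n+1) → X, ∑ t : Fin (n+1) → Y,
          pw μ s t * DX μ (fun u => ∑ x, ((kA μ i.succ s t u x : ℝ) : ℂ) • f x) =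
          ∑ b, mY μ b * ∑ s : Fin n → X, ∑ t : Fin n → Y,
            pw μ s t * DX μ (fun u => ∑ x, ((kA μ i s t u x : ℝ) : ℂ) • F b x) := by
        intro i
        rw [k3_sum_cons]
        simp_rw [e1]
        -- ∑ a, ∑ s, ∑ b, μ a b * G b s
        have e3 : ∀ a : X, ∑ s : Fin n → X, ∑ b, μ a b * ∑ t : Fin n → Y, pw μ s t *
            DX μ (fun u => ∑ x, ((kA μ i s t u x : ℝ) : ℂ) • F b x) =
            ∑ b, μ a b * ∑ s : Fin n → X, ∑ t : Fin n → Y, pw μ s t *
            DX μ (fun u => ∑ x, ((kA μ i s t u x : ℝ) : ℂ) • F b x) := by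
          intro a
          rw [Finset.sum_comm]
          refine Finset.sum_congr rfl fun b _ => ?_
          rw [Finset.mul_sum]
        simp_rw [e3]
        rw [Finset.sum_comm]
        refine Finset.sum_congr rfl fun b _ => ?_
        rw [← Finset.sum_mul]
        rfl
      simp_rw [e2]
      rw [Finset.sum_comm]
      refine Finset.sum_congr rfl fun b _ => ?_
      rw [Finset.mul_sum]
    rw [h0, h1]
    have h2 : ∑ b, mY μ b * ∑ i : Fin n, ∑ s : Fin n → X, ∑ t : Fin n → Y,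
          pw μ s t * DX μ (fun u => ∑ x, ((kA μ i s t u x : ℝ) : ℂ) • F b x) ≤
        ∑ b, mY μ b * ∑ x : Fin n → X, (∏ j, mX μ (x j)) * ‖F b x‖ ^ 2 :=
      Finset.sum_le_sum fun b _ => mul_le_mul_of_nonneg_left (ih (F b)) (hmY b)
    have h3 : ∑ b, mY μ b * ∑ x : Fin n → X, (∏ j, mX μ (x j)) * ‖F b x‖ ^ 2 =
        ∑ s : Fin n → X, (∏ j, mX μ (s j)) * ∑ b, mY μ b * ‖F b s‖ ^ 2 := by
      simp_rw [Finset.mul_sum]
      rw [Finset.sum_comm]
      refine Finset.sum_congr rfl fun s _ => Finset.sum_congr rfl fun b _ => ?_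
      ring
    have h4 : ∑ x : Fin (n+1) → X, (∏ j, mX μ (x j)) * ‖f x‖ ^ 2 =
        ∑ s : Fin n → X, (∏ j, mX μ (s j)) * ∑ u, mX μ u * ‖f (Fin.cons u s)‖ ^ 2 := by
      rw [k3_sum_cons, Finset.sum_comm]
      refine Finset.sum_congr rfl fun s _ => ?_
      rw [Finset.mul_sum]
      refine Finset.sum_congr rfl fun u _ => ?_
      rw [Fin.prod_univ_succ]
      simp only [Fin.cons_zero, Fin.cons_succ]
      ring
    rw [h4]
    have h5 : ∑ s : Fin n → X, (∏ j, mX μ (s j)) *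
          (∑ u, mX μ u * ‖f (Fin.cons u s)‖ ^ 2 - ∑ b, mY μ b * ‖F b s‖ ^ 2) =
        ∑ s : Fin n → X, (∏ j, mX μ (s j)) * ∑ u, mX μ u * ‖f (Fin.cons u s)‖ ^ 2 -
        ∑ s : Fin n → X, (∏ j, mX μ (s j)) * ∑ b, mY μ b * ‖F b s‖ ^ 2 := by
      rw [← Finset.sum_sub_distrib]
      refine Finset.sum_congr rfl fun s _ => ?_
      ring
    rw [h5]
    linarith

end k3

end Pool.Agent.H500R2.PR
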