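import Pool.Agent.H500R2.PR.Basic
set_option autoImplicit false
open scoped InnerProductSpace
namespace Pool.Agent.H500R2.PR

section
variable {X Y : Type} [Fintype X] [Fintype Y]

private theorem k8_prod {n : ℕ} (φ : Fin n → X → Y → ℝ) :
    ∑ x : Fin n → X, ∑ y : Fin n → Y, ∏ l, φ l (x l) (y l) = ∏ l, ∑ a, ∑ b, φ l a b := by
  rw [Finset.prod_univ_sum]
  simp only [Fintype.piFinset_univ]
  apply Finset.sum_congr rfl
  intro x _
  rw [Finset.prod_univ_sum, Fintype.piFinset_univ]

private theorem k8_E {n : ℕ} (μ : X → Y → ℝ) (φ : Fin n → X → Y → ℝ) :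
    ∑ x : Fin n → X, ∑ y : Fin n → Y, pw μ x y * ∏ l, φ l (x l) (y l) =
      ∏ l, ∑ a, ∑ b, μ a b * φ l a b := by
  rw [← k8_prod]
  apply Finset.sum_congr rfl
  intro x _
  apply Finset.sum_congr rfl
  intro y _
  rw [pw, ← Finset.prod_mul_distrib]

private theorem k8_one {n : ℕ} (μ : X → Y → ℝ) (hμ1 : ∑ x, ∑ y, μ x y = 1) :
    ∑ x : Fin n → X, ∑ y : Fin n → Y, pw μ x y = 1 := by
  have h := k8_E (n := n) μ (fun _ _ _ => 1)
  simpa [hμ1] using h

private theorem k8_cov {n : ℕ} (μ : X → Y → ℝ) (hμ : ∀ x y, 0 ≤ μ x y)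
    (hμ1 : ∑ x, ∑ y, μ x y = 1) (c : X → Y → ℝ) (hc : ∑ a, ∑ b, μ a b * c a b = 0)
    (hc2 : ∀ a b, c a b * c a b ≤ 1) (i j : Fin n) :
    ∑ x : Fin n → X, ∑ y : Fin n → Y, pw μ x y * (c (x i) (y i) * c (x j) (y j)) ≤
      if i = j then 1 else 0 := by
  have h := k8_E (n := n) μ (fun l a b => (if l = i then c a b else 1) *
    (if l = j then c a b else 1))
  have h2 : ∀ (x : Fin n → X) (y : Fin n → Y), ∏ l, ((if l = i then c (x l) (y l) else 1) *
      (if l = j then c (x l) (y l) else 1)) = c (x i) (y i) * c (x j) (y j) := by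
    intro x y
    rw [Finset.prod_mul_distrib, Finset.prod_ite_eq', Finset.prod_ite_eq']
    simp
  simp only [h2] at h
  rw [h]
  split_ifs with hij
  · subst hij
    have h3 : ∀ l : Fin n, ∑ a, ∑ b, μ a b * ((if l = i then c a b else 1) *
        (if l = i then c a b else 1)) = if l = i then ∑ a, ∑ b, μ a b * (c a b * c a b) else 1 := by
      intro l
      split_ifs with hl
      · rfl
      · simpa using hμ1
    simp only [h3]
    rw [Finset.prod_ite_eq']
    simp only [Finset.mem_univ, if_true]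
    rw [← hμ1]
    apply Finset.sum_le_sum
    intro a _
    apply Finset.sum_le_sum
    intro b _
    exact mul_le_of_le_one_right (hμ a b) (hc2 a b)
  · apply le_of_eq
    apply Finset.prod_eq_zero (Finset.mem_univ i)
    rw [← hc]
    apply Finset.sum_congr rfl
    intro a _
    apply Finset.sum_congr rfl
    intro b _
    rw [if_pos rfl, if_neg hij, mul_one]

/-- K8: weak law of large numbers -/
theorem conc (μ : X → Y → ℝ) (hμ : ∀ x y, 0 ≤ μ x y) (hμ1 : ∑ x, ∑ y, μ x y = 1)
    (n : ℕ) (g : X → Y → ℝ) (hg0 : ∀ x y, 0 ≤ g x y) (hg1 : ∀ x y, g x y ≤ 1)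
    (D : Finset (Fin n)) :
    ∑ x : Fin n → X, ∑ y : Fin n → Y, pw μ x y *
      |∑ i ∈ D, g (x i) (y i) - D.card * ∑ u, ∑ v, μ u v * g u v| ≤ Real.sqrt n := by
  set q : ℝ := ∑ u, ∑ v, μ u v * g u v with hq
  have hq0 : 0 ≤ q := Finset.sum_nonneg fun u _ => Finset.sum_nonneg fun v _ =>
    mul_nonneg (hμ u v) (hg0 u v)
  have hq1 : q ≤ 1 := by
    rw [← hμ1]
    exact Finset.sum_le_sum fun u _ => Finset.sum_le_sum fun v _ =>
      mul_le_of_le_one_right (hμ u v) (hg1 u v)
  set c : X → Y → ℝ := fun a b => g a b - q with hcdef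
  have hc : ∑ a, ∑ b, μ a b * c a b = 0 := by
    have h1 : ∑ a, ∑ b, μ a b * c a b = ∑ a, ∑ b, μ a b * g a b - (∑ a, ∑ b, μ a b) * q := by
      rw [Finset.sum_mul, ← Finset.sum_sub_distrib]
      apply Finset.sum_congr rfl
      intro a _
      rw [Finset.sum_mul, ← Finset.sum_sub_distrib]
      apply Finset.sum_congr rfl
      intro b _
      rw [hcdef]; ring
    rw [h1, hμ1, ← hq]; ring
  have hc2 : ∀ a b, c a b * c a b ≤ 1 := by
    intro a b
    have h1 := hg0 a b
    have h2 := hg1 a b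
    have h3 : -1 ≤ c a b := by simp only [hcdef]; linarith
    have h4 : c a b ≤ 1 := by simp only [hcdef]; linarith
    nlinarith
  have hZ : ∀ (x : Fin n → X) (y : Fin n → Y), ∑ i ∈ D, g (x i) (y i) - D.card * q =
      ∑ i ∈ D, c (x i) (y i) := by
    intro x y
    simp only [hcdef]
    rw [Finset.sum_sub_distrib, Finset.sum_const, nsmul_eq_mul]
  simp only [hZ]
  have hpw : ∀ (x : Fin n → X) (y : Fin n → Y), 0 ≤ pw μ x y := by
    intro x y
    exact Finset.prod_nonneg fun j _ => hμ _ _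
  have hE2 : ∑ x : Fin n → X, ∑ y : Fin n → Y, pw μ x y * (∑ i ∈ D, c (x i) (y i)) ^ 2 ≤ n := by
    have h1 : ∑ x : Fin n → X, ∑ y : Fin n → Y, pw μ x y * (∑ i ∈ D, c (x i) (y i)) ^ 2 =
        ∑ i ∈ D, ∑ j ∈ D, ∑ x : Fin n → X, ∑ y : Fin n → Y,
          pw μ x y * (c (x i) (y i) * c (x j) (y j)) := by
      have h2 : ∀ (x : Fin n → X) (y : Fin n → Y), pw μ x y * (∑ i ∈ D, c (x i) (y i)) ^ 2 =
          ∑ i ∈ D, ∑ j ∈ D, pw μ x y * (c (x i) (y i) * c (x j) (y j)) := by
        intro x y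
        rw [pow_two, Finset.sum_mul_sum, Finset.mul_sum]
        apply Finset.sum_congr rfl
        intro i _
        rw [Finset.mul_sum]
      simp only [h2]
      have h3 : ∀ x : Fin n → X, ∑ y : Fin n → Y, ∑ i ∈ D, ∑ j ∈ D,
          pw μ x y * (c (x i) (y i) * c (x j) (y j)) = ∑ i ∈ D, ∑ j ∈ D, ∑ y : Fin n → Y,
          pw μ x y * (c (x i) (y i) * c (x j) (y j)) := by
        intro x
        rw [Finset.sum_comm]
        apply Finset.sum_congr rfl
        intro i _
        rw [Finset.sum_comm]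
      simp only [h3]
      rw [Finset.sum_comm]
      apply Finset.sum_congr rfl
      intro i _
      rw [Finset.sum_comm]
    rw [h1]
    calc ∑ i ∈ D, ∑ j ∈ D, ∑ x : Fin n → X, ∑ y : Fin n → Y,
          pw μ x y * (c (x i) (y i) * c (x j) (y j))
        ≤ ∑ i ∈ D, ∑ j ∈ D, (if i = j then (1 : ℝ) else 0) :=
          Finset.sum_le_sum fun i _ => Finset.sum_le_sum fun j _ => k8_cov μ hμ hμ1 c hc hc2 i j
      _ = ∑ i ∈ D, (1 : ℝ) := by
          apply Finset.sum_congr rfl
          intro i hi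
          rw [Finset.sum_ite_eq]
          simp [hi]
      _ = D.card := by simp
      _ ≤ n := by
          have := Finset.card_le_univ D
          rw [Fintype.card_fin] at this
          exact_mod_cast this
  rcases Nat.eq_zero_or_pos n with hn | hn
  · subst hn
    have hD : D = ∅ := by
      apply Finset.eq_empty_of_forall_notMem
      intro i; exact i.elim0
    subst hD
    simp
  · set t : ℝ := Real.sqrt n with ht
    have hn' : (0 : ℝ) < n := by exact_mod_cast hn
    have ht0 : 0 < t := Real.sqrt_pos.2 hn'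
    have htt : t * t = n := Real.mul_self_sqrt hn'.le
    have hpt : ∀ z : ℝ, |z| ≤ (1 / (2 * t)) * z ^ 2 + t / 2 := by
      intro z
      have h1 : 0 ≤ (|z| - t) ^ 2 := sq_nonneg _
      have h2 : |z| ^ 2 = z ^ 2 := sq_abs z
      have h3 : (1 / (2 * t)) * z ^ 2 + t / 2 - |z| = (1 / (2 * t)) * (|z| - t) ^ 2 := by
        field_simp
        rw [← h2]; ring
      have h4 : 0 ≤ (1 / (2 * t)) * (|z| - t) ^ 2 := by positivity
      linarith
    calc ∑ x : Fin n → X, ∑ y : Fin n → Y, pw μ x y * |∑ i ∈ D, c (x i) (y i)|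
        ≤ ∑ x : Fin n → X, ∑ y : Fin n → Y, ((1 / (2 * t)) *
            (pw μ x y * (∑ i ∈ D, c (x i) (y i)) ^ 2) + t / 2 * pw μ x y) := by
          apply Finset.sum_le_sum
          intro x _
          apply Finset.sum_le_sum
          intro y _
          have := mul_le_mul_of_nonneg_left (hpt (∑ i ∈ D, c (x i) (y i))) (hpw x y)
          linarith
      _ = (1 / (2 * t)) * (∑ x : Fin n → X, ∑ y : Fin n → Y,
            (pw μ x y * (∑ i ∈ D, c (x i) (y i)) ^ 2)) +
            t / 2 * ∑ x : Fin n → X, ∑ y : Fin n → Y, pw μ x y := by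
          rw [Finset.mul_sum, Finset.mul_sum, ← Finset.sum_add_distrib]
          apply Finset.sum_congr rfl
          intro x _
          rw [Finset.mul_sum, Finset.mul_sum, ← Finset.sum_add_distrib]
      _ ≤ (1 / (2 * t)) * n + t / 2 * 1 := by
          rw [k8_one μ hμ1]
          have : 0 ≤ 1 / (2 * t) := by positivity
          have := mul_le_mul_of_nonneg_left hE2 this
          linarith
      _ = t := by
          rw [← htt]; field_simp; ring

end

end Pool.Agent.H500R2.PR
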