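import Pool.Agent.H500R2.PR.Basic
set_option autoImplicit false
open scoped InnerProductSpace
namespace Pool.Agent.H500R2.PR

section K
variable {X Y : Type} [Fintype X] [Fintype Y]

/-- K9 -/
theorem pw_sum_right (μ : X → Y → ℝ) (n : ℕ) (x : Fin n → X) :
    ∑ y : Fin n → Y, pw μ x y = ∏ j, mX μ (x j) := by
  classical
  unfold pw mX
  rw [Finset.prod_univ_sum, Fintype.piFinset_univ]

/-- K9 -/
theorem pw_sum (μ : X → Y → ℝ) (n : ℕ) (hμ1 : ∑ x, ∑ y, μ x y = 1) :
    ∑ x : Fin n → X, ∑ y : Fin n → Y, pw μ x y = 1 := by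
  classical
  simp_rw [pw_sum_right]
  have h := Finset.prod_univ_sum (fun _ : Fin n => (Finset.univ : Finset X))
    (fun _ x => mX μ x)
  rw [Fintype.piFinset_univ] at h
  rw [← h]
  have h1 : ∑ x, mX μ x = 1 := hμ1
  simp [h1]

end K
end Pool.Agent.H500R2.PR
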