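import Pool.Agent.H500R2.PR.Basic
set_option autoImplicit false
open scoped InnerProductSpace
namespace Pool.Agent.H500R2.PR

section S0
variable {X Y A B : Type} [Fintype X] [Fintype Y] [Fintype A] [Fintype B]
variable {H : Type} [NormedAddCommGroup H] [InnerProductSpace ℂ H] [CompleteSpace H]

/-- S0 -/
theorem opP_sum {n : ℕ} (P : (Fin n → X) → (Fin n → A) → (H →L[ℂ] H)) (C : Finset (Fin n))
    (κx : C → X) (κa : C → A) (i : Fin n) (x : Fin n → X) :
    ∑ a, opP P C κx κa i a x = opE P C κx κa x := by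
  classical
  unfold opP opE
  by_cases hx : ∀ j : C, x j = κx j
  · simp only [if_pos hx]
    rw [Finset.sum_comm]
    refine Finset.sum_congr rfl fun a' _ => ?_
    by_cases ha : ∀ j : C, a' j = κa j
    · simp only [ha, implies_true, true_and, if_true]
      rw [Finset.sum_ite_eq]
      simp
    · simp only [ha, false_and, if_false, Finset.sum_const_zero]
  · simp only [if_neg hx, Finset.sum_const_zero]

/-- S0 -/
theorem opP_nonneg {n : ℕ} (P : (Fin n → X) → (Fin n → A) → (H →L[ℂ] H)) (hP : Povm P)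
    (C : Finset (Fin n)) (κx : C → X) (κa : C → A) (i : Fin n) (a : A) (x : Fin n → X) :
    0 ≤ opP P C κx κa i a x := by
  unfold opP
  split_ifs
  · refine Finset.sum_nonneg fun a' _ => ?_
    split_ifs
    · exact hP.1 x a'
    · exact le_rfl
  · exact le_rfl

/-- S0 -/
theorem opE_nonneg {n : ℕ} (P : (Fin n → X) → (Fin n → A) → (H →L[ℂ] H)) (hP : Povm P)
    (C : Finset (Fin n)) (κx : C → X) (κa : C → A) (x : Fin n → X) :
    0 ≤ opE P C κx κa x := by
  unfold opE
  split_ifs
  · refine Finset.sum_nonneg fun a' _ => ?_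
    split_ifs
    · exact hP.1 x a'
    · exact le_rfl
  · exact le_rfl

/-- S0 -/
theorem opE_le_one {n : ℕ} (P : (Fin n → X) → (Fin n → A) → (H →L[ℂ] H)) (hP : Povm P)
    (C : Finset (Fin n)) (κx : C → X) (κa : C → A) (x : Fin n → X) :
    opE P C κx κa x ≤ 1 := by
  unfold opE
  have h1 : (0 : H →L[ℂ] H) ≤ 1 := by
    rw [← hP.2 x]
    exact Finset.sum_nonneg fun a _ => hP.1 x a
  split_ifs
  · rw [← hP.2 x]
    refine Finset.sum_le_sum fun a' _ => ?_
    split_ifs
    · exact le_rfl
    · exact hP.1 x a'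
  · exact h1

/-- S0 -/
theorem opP_commute {n : ℕ} (P : (Fin n → X) → (Fin n → A) → (H →L[ℂ] H))
    (Q : (Fin n → Y) → (Fin n → B) → (H →L[ℂ] H))
    (hc : ∀ x a y b, Commute (P x a) (Q y b)) (C : Finset (Fin n))
    (κx : C → X) (κa : C → A) (κy : C → Y) (κb : C → B) (i : Fin n) (a : A) (b : B)
    (x : Fin n → X) (y : Fin n → Y) :
    Commute (opP P C κx κa i a x) (opP Q C κy κb i b y) := by
  unfold opP
  split_ifs
  · refine Commute.sum_left _ _ _ fun a' _ => Commute.sum_right _ _ _ fun b' _ => ?_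
    split_ifs
    · exact hc _ _ _ _
    · exact Commute.zero_right _
    · exact Commute.zero_left _
    · exact Commute.zero_left _
  · exact Commute.zero_right _
  · exact Commute.zero_left _
  · exact Commute.zero_left _

end S0

end Pool.Agent.H500R2.PR
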