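import Pool.Agent.H500R2.PR.Basic
set_option autoImplicit false
open scoped InnerProductSpace
namespace Pool.Agent.H500R2.PR

section S
variable {X Y A B : Type} [Fintype X] [Fintype Y] [Fintype A] [Fintype B]
variable {H : Type} [NormedAddCommGroup H] [InnerProductSpace ℂ H] [CompleteSpace H]

open Classical in
private theorem S1_ev {n : ℕ} (P : (Fin n → A) → (H →L[ℂ] H)) (Q : (Fin n → B) → (H →L[ℂ] H))
    (ψ : H) (C : Finset (Fin n)) (κa : C → A) (κb : C → B) :
    ev ψ ((∑ a, (if (∀ j : C, a j = κa j) then P a else 0)) *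
      (∑ b, (if (∀ j : C, b j = κb j) then Q b else 0))) =
    ∑ a : Fin n → A, ∑ b : Fin n → B, (if (∀ j : C, a j = κa j) ∧ (∀ j : C, b j = κb j) then
      ev ψ (P a * Q b) else 0) := by
  rw [Finset.sum_mul_sum, ev_sum]
  refine Finset.sum_congr rfl fun a _ => ?_
  rw [ev_sum]
  refine Finset.sum_congr rfl fun b _ => ?_
  by_cases h1 : ∀ j : C, a j = κa j
  · by_cases h2 : ∀ j : C, b j = κb j
    · rw [if_pos h1, if_pos h2, if_pos ⟨h1, h2⟩]
    · have h3 : ¬ ((∀ j : C, a j = κa j) ∧ (∀ j : C, b j = κb j)) := fun h => h2 h.2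
      rw [if_neg h2, if_neg h3, mul_zero, ev_zero]
  · have h3 : ¬ ((∀ j : C, a j = κa j) ∧ (∀ j : C, b j = κb j)) := fun h => h1 h.1
    rw [if_neg h1, if_neg h3, zero_mul, ev_zero]

open Classical in
/-- S1 -/
theorem sum_opE {n : ℕ} (V : X → Y → A → B → Bool)
    (P : (Fin n → X) → (Fin n → A) → (H →L[ℂ] H))
    (Q : (Fin n → Y) → (Fin n → B) → (H →L[ℂ] H)) (ψ : H) (C : Finset (Fin n))
    (x : Fin n → X) (y : Fin n → Y) :
    (∑ κ : (C → X) × (C → Y) × (C → A) × (C → B),
      if (∀ j : C, V (κ.1 j) (κ.2.1 j) (κ.2.2.1 j) (κ.2.2.2 j) = true) then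
        ev ψ (opE P C κ.1 κ.2.2.1 x * opE Q C κ.2.1 κ.2.2.2 y) else 0) =
      wn V P Q ψ C x y := by
  rw [Fintype.sum_prod_type]
  rw [Finset.sum_eq_single (fun j : C => x j)]
  rotate_left
  · intro κx _ hκx
    have hne : ¬ ∀ j : C, x j = κx j := fun h => hκx (funext fun j => (h j).symm)
    refine Finset.sum_eq_zero fun κ _ => ?_
    simp only [opE, if_neg hne, zero_mul, ev_zero, ite_self]
  · intro h; exact absurd (Finset.mem_univ _) h
  rw [Fintype.sum_prod_type]
  rw [Finset.sum_eq_single (fun j : C => y j)]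
  rotate_left
  · intro κy _ hκy
    have hne : ¬ ∀ j : C, y j = κy j := fun h => hκy (funext fun j => (h j).symm)
    refine Finset.sum_eq_zero fun κ _ => ?_
    simp only [opE, if_neg hne, mul_zero, ev_zero, ite_self]
  · intro h; exact absurd (Finset.mem_univ _) h
  rw [Fintype.sum_prod_type]
  have e1 : ∀ (κa : C → A) (κb : C → B),
      (if (∀ j : C, V (x j) (y j) (κa j) (κb j) = true) then
        ev ψ (opE P C (fun j : C => x j) κa x * opE Q C (fun j : C => y j) κb y) else 0) =
      ∑ a : Fin n → A, ∑ b : Fin n → B,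
        (if (∀ j : C, V (x j) (y j) (κa j) (κb j) = true) ∧
          ((∀ j : C, a j = κa j) ∧ (∀ j : C, b j = κb j)) then ev ψ (P x a * Q y b) else 0) := by
    intro κa κb
    have e2 : opE P C (fun j : C => x j) κa x =
        ∑ a, (if (∀ j : C, a j = κa j) then P x a else 0) := by
      simp [opE]
    have e3 : opE Q C (fun j : C => y j) κb y =
        ∑ b, (if (∀ j : C, b j = κb j) then Q y b else 0) := by
      simp [opE]
    rw [e2, e3, S1_ev (P x) (Q y)]
    by_cases h : ∀ j : C, V (x j) (y j) (κa j) (κb j) = true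
    · rw [if_pos h]
      refine Finset.sum_congr rfl fun a _ => Finset.sum_congr rfl fun b _ => ?_
      congr 1
      exact propext ⟨fun h' => ⟨h, h'⟩, fun h' => h'.2⟩
    · rw [if_neg h]
      symm
      refine Finset.sum_eq_zero fun a _ => Finset.sum_eq_zero fun b _ => ?_
      rw [if_neg (fun h' => h h'.1)]
  simp only [e1]
  unfold wn
  -- exchange the sums
  have e4 : (∑ κa : C → A, ∑ κb : C → B, ∑ a : Fin n → A, ∑ b : Fin n → B,
        (if (∀ j : C, V (x j) (y j) (κa j) (κb j) = true) ∧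
          ((∀ j : C, a j = κa j) ∧ (∀ j : C, b j = κb j)) then ev ψ (P x a * Q y b) else 0)) =
      ∑ a : Fin n → A, ∑ b : Fin n → B, ∑ κa : C → A, ∑ κb : C → B,
        (if (∀ j : C, V (x j) (y j) (κa j) (κb j) = true) ∧
          ((∀ j : C, a j = κa j) ∧ (∀ j : C, b j = κb j)) then ev ψ (P x a * Q y b) else 0) := by
    have f1 : ∀ κa : C → A, (∑ κb : C → B, ∑ a : Fin n → A, ∑ b : Fin n → B,
        (if (∀ j : C, V (x j) (y j) (κa j) (κb j) = true) ∧
          ((∀ j : C, a j = κa j) ∧ (∀ j : C, b j = κb j)) then ev ψ (P x a * Q y b) else 0)) =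
      ∑ a : Fin n → A, ∑ b : Fin n → B, ∑ κb : C → B,
        (if (∀ j : C, V (x j) (y j) (κa j) (κb j) = true) ∧
          ((∀ j : C, a j = κa j) ∧ (∀ j : C, b j = κb j)) then ev ψ (P x a * Q y b) else 0) := by
      intro κa
      rw [Finset.sum_comm]
      refine Finset.sum_congr rfl fun a _ => ?_
      rw [Finset.sum_comm]
    simp only [f1]
    rw [Finset.sum_comm]
    refine Finset.sum_congr rfl fun a _ => ?_
    rw [Finset.sum_comm]
  rw [e4]
  refine Finset.sum_congr rfl fun a _ => Finset.sum_congr rfl fun b _ => ?_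
  rw [Finset.sum_eq_single (fun j : C => a j)]
  rotate_left
  · intro κa _ hκa
    have hne : ¬ ∀ j : C, a j = κa j := fun h => hκa (funext fun j => (h j).symm)
    refine Finset.sum_eq_zero fun κ _ => ?_
    rw [if_neg (fun h => hne h.2.1)]
  · intro h; exact absurd (Finset.mem_univ _) h
  rw [Finset.sum_eq_single (fun j : C => b j)]
  rotate_left
  · intro κb _ hκb
    have hne : ¬ ∀ j : C, b j = κb j := fun h => hκb (funext fun j => (h j).symm)
    rw [if_neg (fun h => hne h.2.2)]
  · intro h; exact absurd (Finset.mem_univ _) h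
  congr 1
  refine propext ⟨fun h i hi => h.1 ⟨i, hi⟩, fun h => ⟨fun j => h j.1 j.2, ?_, ?_⟩⟩
  · intro j; rfl
  · intro j; rfl

end S

end Pool.Agent.H500R2.PR
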