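import Pool.Agent.H500R2.PR.Basic
set_option autoImplicit false
open scoped InnerProductSpace
namespace Pool.Agent.H500R2.PR

section S
variable {X Y A B : Type} [Fintype X] [Fintype Y] [Fintype A] [Fintype B]
variable {H : Type} [NormedAddCommGroup H] [InnerProductSpace ℂ H] [CompleteSpace H]

open Classical in
private theorem s2_expand {n : ℕ}
    (P : (Fin n → X) → (Fin n → A) → (H →L[ℂ] H))
    (Q : (Fin n → Y) → (Fin n → B) → (H →L[ℂ] H)) (ψ : H) (C : Finset (Fin n))
    (κx : C → X) (κy : C → Y) (κa : C → A) (κb : C → B) (i : Fin n) (a : A) (b : B)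
    (x : Fin n → X) (y : Fin n → Y) :
    ev ψ (opP P C κx κa i a x * opP Q C κy κb i b y) =
      ∑ a' : Fin n → A, ∑ b' : Fin n → B,
        if ((∀ j : C, x j = κx j) ∧ (∀ j : C, a' j = κa j) ∧ a' i = a) ∧
          ((∀ j : C, y j = κy j) ∧ (∀ j : C, b' j = κb j) ∧ b' i = b) then
          ev ψ (P x a' * Q y b') else 0 := by
  by_cases hx : ∀ j : C, x j = κx j
  · by_cases hy : ∀ j : C, y j = κy j
    · have e1 : opP P C κx κa i a x =
          ∑ a' : Fin n → A, (if (∀ j : C, a' j = κa j) ∧ a' i = a then P x a' else 0) := by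
        rw [opP, if_pos hx]
      have e2 : opP Q C κy κb i b y =
          ∑ b' : Fin n → B, (if (∀ j : C, b' j = κb j) ∧ b' i = b then Q y b' else 0) := by
        rw [opP, if_pos hy]
      rw [e1, e2, Finset.sum_mul_sum, ev_sum]
      apply Finset.sum_congr rfl
      intro a' _
      rw [ev_sum]
      apply Finset.sum_congr rfl
      intro b' _
      by_cases h1 : (∀ j : C, a' j = κa j) ∧ a' i = a
      · by_cases h2 : (∀ j : C, b' j = κb j) ∧ b' i = b
        · rw [if_pos h1, if_pos h2, if_pos ⟨⟨hx, h1⟩, ⟨hy, h2⟩⟩]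
        · rw [if_neg h2, mul_zero, ev_zero, if_neg (fun h => h2 h.2.2)]
      · rw [if_neg h1, zero_mul, ev_zero, if_neg (fun h => h1 h.1.2)]
    · have e2 : opP Q C κy κb i b y = 0 := by rw [opP, if_neg hy]
      rw [e2, mul_zero, ev_zero]
      symm
      apply Finset.sum_eq_zero
      intro a' _
      apply Finset.sum_eq_zero
      intro b' _
      rw [if_neg (fun h => hy h.2.1)]
  · have e2 : opP P C κx κa i a x = 0 := by rw [opP, if_neg hx]
    rw [e2, zero_mul, ev_zero]
    symm
    apply Finset.sum_eq_zero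
    intro a' _
    apply Finset.sum_eq_zero
    intro b' _
    rw [if_neg (fun h => hx h.1.1)]

open Classical in
/-- S2 -/
theorem sum_opP {n : ℕ} (V : X → Y → A → B → Bool)
    (P : (Fin n → X) → (Fin n → A) → (H →L[ℂ] H))
    (Q : (Fin n → Y) → (Fin n → B) → (H →L[ℂ] H)) (ψ : H) (C : Finset (Fin n))
    (i : Fin n) (x : Fin n → X) (y : Fin n → Y) :
    (∑ κ : (C → X) × (C → Y) × (C → A) × (C → B),
      if (∀ j : C, V (κ.1 j) (κ.2.1 j) (κ.2.2.1 j) (κ.2.2.2 j) = true) then
        ∑ a, ∑ b, (if V (x i) (y i) a b = true then 0 else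
          ev ψ (opP P C κ.1 κ.2.2.1 i a x * opP Q C κ.2.1 κ.2.2.2 i b y)) else 0) =
      wn V P Q ψ C x y - wn V P Q ψ (insert i C) x y := by
  -- the inner sums as sums over `(a', b')`
  have step1 : ∀ κ : (C → X) × (C → Y) × (C → A) × (C → B),
      (if (∀ j : C, V (κ.1 j) (κ.2.1 j) (κ.2.2.1 j) (κ.2.2.2 j) = true) then
        ∑ a, ∑ b, (if V (x i) (y i) a b = true then 0 else
          ev ψ (opP P C κ.1 κ.2.2.1 i a x * opP Q C κ.2.1 κ.2.2.2 i b y)) else 0) =
      ∑ ab : A × B, ∑ a' : Fin n → A, ∑ b' : Fin n → B,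
        if ((κ, ab) : ((C → X) × (C → Y) × (C → A) × (C → B)) × (A × B)) =
            (((fun j : C => x j), (fun j : C => y j), (fun j : C => a' j), (fun j : C => b' j)), (a' i, b' i)) ∧
          ((∀ j : C, V (x j) (y j) (a' j) (b' j) = true) ∧ ¬ V (x i) (y i) (a' i) (b' i) = true)
        then ev ψ (P x a' * Q y b') else 0 := by
    intro κ
    rw [Fintype.sum_prod_type]
    by_cases hV : ∀ j : C, V (κ.1 j) (κ.2.1 j) (κ.2.2.1 j) (κ.2.2.2 j) = true
    · rw [if_pos hV]
      apply Finset.sum_congr rfl
      intro a _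
      apply Finset.sum_congr rfl
      intro b _
      by_cases hab : V (x i) (y i) a b = true
      · rw [if_pos hab]
        symm
        apply Finset.sum_eq_zero
        intro a' _
        apply Finset.sum_eq_zero
        intro b' _
        apply if_neg
        rintro ⟨h1, -, h3⟩
        apply h3
        have h4 := congrArg (fun z : ((C → X) × (C → Y) × (C → A) × (C → B)) × (A × B) => z.2.1) h1
        have h5 := congrArg (fun z : ((C → X) × (C → Y) × (C → A) × (C → B)) × (A × B) => z.2.2) h1
        simp only at h4 h5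
        rw [← h4, ← h5]; exact hab
      · rw [if_neg hab, s2_expand]
        apply Finset.sum_congr rfl
        intro a' _
        apply Finset.sum_congr rfl
        intro b' _
        apply if_congr _ rfl rfl
        obtain ⟨k1, k2, k3, k4⟩ := κ
        simp only [Prod.mk.injEq]
        simp only at hV
        constructor
        · rintro ⟨⟨h1, h2, h3⟩, h4, h5, h6⟩
          have e1 : k1 = fun j : C => x j := funext fun j => (h1 j).symm
          have e2 : k2 = fun j : C => y j := funext fun j => (h4 j).symm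
          have e3 : k3 = fun j : C => a' j := funext fun j => (h2 j).symm
          have e4 : k4 = fun j : C => b' j := funext fun j => (h5 j).symm
          refine ⟨⟨⟨e1, e2, e3, e4⟩, h3.symm, h6.symm⟩, ?_, ?_⟩
          · intro j
            have := hV j
            rw [e1, e2, e3, e4] at this
            exact this
          · rw [h3, h6]; exact hab
        · rintro ⟨⟨⟨e1, e2, e3, e4⟩, h3, h6⟩, -, -⟩
          subst e1 e2 e3 e4
          exact ⟨⟨fun _ => rfl, fun _ => rfl, h3.symm⟩, fun _ => rfl, fun _ => rfl, h6.symm⟩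
    · rw [if_neg hV]
      symm
      apply Finset.sum_eq_zero
      intro a _
      apply Finset.sum_eq_zero
      intro b _
      apply Finset.sum_eq_zero
      intro a' _
      apply Finset.sum_eq_zero
      intro b' _
      apply if_neg
      rintro ⟨h1, h2, -⟩
      apply hV
      have h4 : κ = ((fun j : C => x j), (fun j : C => y j), (fun j : C => a' j), (fun j : C => b' j)) :=
        congrArg (fun z : ((C → X) × (C → Y) × (C → A) × (C → B)) × (A × B) => z.1) h1
      rw [h4]
      exact h2
  rw [Finset.sum_congr rfl (fun κ _ => step1 κ)]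
  rw [← Fintype.sum_prod_type (f := fun z : ((C → X) × (C → Y) × (C → A) × (C → B)) × (A × B) =>
      ∑ a' : Fin n → A, ∑ b' : Fin n → B,
        if z = (((fun j : C => x j), (fun j : C => y j), (fun j : C => a' j), (fun j : C => b' j)), (a' i, b' i)) ∧
          ((∀ j : C, V (x j) (y j) (a' j) (b' j) = true) ∧ ¬ V (x i) (y i) (a' i) (b' i) = true)
        then ev ψ (P x a' * Q y b') else 0)]
  rw [Finset.sum_comm]
  have step2 : ∀ a' : Fin n → A, ∑ z : ((C → X) × (C → Y) × (C → A) × (C → B)) × (A × B),
      ∑ b' : Fin n → B,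
        (if z = (((fun j : C => x j), (fun j : C => y j), (fun j : C => a' j), (fun j : C => b' j)),
            (a' i, b' i)) ∧
          ((∀ j : C, V (x j) (y j) (a' j) (b' j) = true) ∧ ¬ V (x i) (y i) (a' i) (b' i) = true)
        then ev ψ (P x a' * Q y b') else 0) =
      ∑ b' : Fin n → B, if ((∀ j : C, V (x j) (y j) (a' j) (b' j) = true) ∧
        ¬ V (x i) (y i) (a' i) (b' i) = true) then ev ψ (P x a' * Q y b') else 0 := by
    intro a'
    rw [Finset.sum_comm]
    apply Finset.sum_congr rfl
    intro b' _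
    rw [Finset.sum_eq_single (((fun j : C => x j), (fun j : C => y j), (fun j : C => a' j),
      (fun j : C => b' j)), (a' i, b' i))]
    · exact if_congr (by simp only [true_and]) rfl rfl
    · intro z _ hz
      exact if_neg (fun h => hz h.1)
    · intro h
      exact absurd (Finset.mem_univ _) h
  rw [Finset.sum_congr rfl (fun a' _ => step2 a')]
  rw [wn, wn, ← Finset.sum_sub_distrib]
  apply Finset.sum_congr rfl
  intro a' _
  rw [← Finset.sum_sub_distrib]
  apply Finset.sum_congr rfl
  intro b' _
  by_cases h1 : ∀ j ∈ C, V (x j) (y j) (a' j) (b' j) = true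
  · have h1' : ∀ j : C, V (x j) (y j) (a' j) (b' j) = true := fun j => h1 j j.2
    by_cases h2 : V (x i) (y i) (a' i) (b' i) = true
    · have h3 : ∀ j ∈ insert i C, V (x j) (y j) (a' j) (b' j) = true := by
        intro j hj
        rcases Finset.mem_insert.1 hj with rfl | hj
        · exact h2
        · exact h1 j hj
      rw [if_neg (fun h => h.2 h2), if_pos h1, if_pos h3, sub_self]
    · have h3 : ¬ ∀ j ∈ insert i C, V (x j) (y j) (a' j) (b' j) = true :=
        fun h => h2 (h i (Finset.mem_insert_self i C))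
      rw [if_pos ⟨h1', h2⟩, if_pos h1, if_neg h3, sub_zero]
  · have h3 : ¬ ∀ j ∈ insert i C, V (x j) (y j) (a' j) (b' j) = true :=
      fun h => h1 (fun j hj => h j (Finset.mem_insert_of_mem hj))
    rw [if_neg (fun h => h1 (fun j hj => h.1 ⟨j, hj⟩)), if_neg h1, if_neg h3, sub_zero]

end S

end Pool.Agent.H500R2.PR
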