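import Pool.Agent.H500R2.PR.Basic
set_option autoImplicit false
open scoped InnerProductSpace
namespace Pool.Agent.H500R2.PR

section S3
variable {X Y A B : Type} [Fintype X] [Fintype Y] [Fintype A] [Fintype B]
variable {H : Type} [NormedAddCommGroup H] [InnerProductSpace ℂ H] [CompleteSpace H]

/-- S3 -/
theorem wn_nonneg {n : ℕ} (V : X → Y → A → B → Bool)
    (P : (Fin n → X) → (Fin n → A) → (H →L[ℂ] H))
    (Q : (Fin n → Y) → (Fin n → B) → (H →L[ℂ] H)) (hP : Povm P) (hQ : Povm Q)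
    (hc : ∀ x a y b, Commute (P x a) (Q y b)) (ψ : H) (C : Finset (Fin n))
    (x : Fin n → X) (y : Fin n → Y) : 0 ≤ wn V P Q ψ C x y := by
  unfold wn
  refine Finset.sum_nonneg fun a _ => Finset.sum_nonneg fun b _ => ?_
  split_ifs
  · exact ev_mul_nonneg ψ _ _ (hP.1 x a) (hQ.1 y b) (hc x a y b)
  · exact le_rfl

/-- S3 -/
theorem wn_anti {n : ℕ} (V : X → Y → A → B → Bool)
    (P : (Fin n → X) → (Fin n → A) → (H →L[ℂ] H))
    (Q : (Fin n → Y) → (Fin n → B) → (H →L[ℂ] H)) (hP : Povm P) (hQ : Povm Q)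
    (hc : ∀ x a y b, Commute (P x a) (Q y b)) (ψ : H) (C D : Finset (Fin n)) (hCD : C ⊆ D)
    (x : Fin n → X) (y : Fin n → Y) : wn V P Q ψ D x y ≤ wn V P Q ψ C x y := by
  unfold wn
  refine Finset.sum_le_sum fun a _ => Finset.sum_le_sum fun b _ => ?_
  have h0 := ev_mul_nonneg ψ _ _ (hP.1 x a) (hQ.1 y b) (hc x a y b)
  by_cases hD : ∀ i ∈ D, V (x i) (y i) (a i) (b i) = true
  · rw [if_pos hD, if_pos fun i hi => hD i (hCD hi)]
  · rw [if_neg hD]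
    split_ifs
    · exact h0
    · exact le_rfl

theorem S3_total {n : ℕ}
    (P : (Fin n → X) → (Fin n → A) → (H →L[ℂ] H))
    (Q : (Fin n → Y) → (Fin n → B) → (H →L[ℂ] H)) (hP : Povm P) (hQ : Povm Q)
    (ψ : H) (hψ : ‖ψ‖ = 1) (x : Fin n → X) (y : Fin n → Y) :
    ∑ a, ∑ b, ev ψ (P x a * Q y b) = 1 := by
  have h1 : ∑ a, ∑ b, ev ψ (P x a * Q y b) = ev ψ ((∑ a, P x a) * (∑ b, Q y b)) := by
    rw [Finset.sum_mul_sum, ev_sum]
    refine Finset.sum_congr rfl fun a _ => ?_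
    rw [ev_sum]
  rw [h1, hP.2 x, hQ.2 y, one_mul, ev_one, hψ, one_pow]

/-- S3 -/
theorem wn_le_one {n : ℕ} (V : X → Y → A → B → Bool)
    (P : (Fin n → X) → (Fin n → A) → (H →L[ℂ] H))
    (Q : (Fin n → Y) → (Fin n → B) → (H →L[ℂ] H)) (hP : Povm P) (hQ : Povm Q)
    (hc : ∀ x a y b, Commute (P x a) (Q y b)) (ψ : H) (hψ : ‖ψ‖ = 1) (C : Finset (Fin n))
    (x : Fin n → X) (y : Fin n → Y) : wn V P Q ψ C x y ≤ 1 := by
  rw [← S3_total P Q hP hQ ψ hψ x y]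
  unfold wn
  refine Finset.sum_le_sum fun a _ => Finset.sum_le_sum fun b _ => ?_
  split_ifs
  · exact le_rfl
  · exact ev_mul_nonneg ψ _ _ (hP.1 x a) (hQ.1 y b) (hc x a y b)

end S3

end Pool.Agent.H500R2.PR
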