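import Pool.Agent.H500R2.PR.Basic
set_option autoImplicit false
open scoped InnerProductSpace
namespace Pool.Agent.H500R2.PR

section S4
variable {X Y A B : Type} [Fintype X] [Fintype Y] [Fintype A] [Fintype B]
variable {H : Type} [NormedAddCommGroup H] [InnerProductSpace ℂ H] [CompleteSpace H]

private theorem S4_opP_sum {X A : Type} [Fintype A] {n : ℕ}
    (P : (Fin n → X) → (Fin n → A) → (H →L[ℂ] H)) (C : Finset (Fin n))
    (κx : C → X) (κa : C → A) (i : Fin n) (x : Fin n → X) :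
    ∑ a, opP P C κx κa i a x = opE P C κx κa x := by
  classical
  unfold opP opE
  by_cases hx : ∀ j : C, x j = κx j
  · simp only [if_pos hx]
    rw [Finset.sum_comm]
    refine Finset.sum_congr rfl fun a' _ => ?_
    by_cases ha : ∀ j : C, a' j = κa j
    · rw [if_pos ha, Finset.sum_eq_single (a' i)]
      · rw [if_pos ⟨ha, rfl⟩]
      · intro b _ hb
        rw [if_neg fun h => hb h.2.symm]
      · intro h
        exact absurd (Finset.mem_univ _) h
    · rw [if_neg ha]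
      exact Finset.sum_eq_zero fun b _ => if_neg fun h => ha h.1
  · simp only [if_neg hx, Finset.sum_const_zero]

private theorem S4_gen {X A : Type} [Fintype X] [Fintype A] [Nonempty A] {n : ℕ}
    (P : (Fin n → X) → (Fin n → A) → (H →L[ℂ] H)) (C : Finset (Fin n))
    (κx : C → X) (κa : C → A) (δ : ℝ) (i : Fin n) (k : (Fin n → X) → ℂ) :
    ∑ a, ∑ x, k x • (opP P C κx κa i a x + ((δ / Fintype.card A : ℝ) : ℂ) • (1 : H →L[ℂ] H)) =
      ∑ x, k x • (opE P C κx κa x + ((δ : ℝ) : ℂ) • (1 : H →L[ℂ] H)) := by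
  have hc : (Fintype.card A : ℝ) ≠ 0 := by exact_mod_cast Fintype.card_ne_zero
  rw [Finset.sum_comm]
  refine Finset.sum_congr rfl fun x _ => ?_
  rw [← Finset.smul_sum, Finset.sum_add_distrib, S4_opP_sum, Finset.sum_const, Finset.card_univ,
    ← Nat.cast_smul_eq_nsmul ℂ, smul_smul]
  have h1 : ((Fintype.card A : ℕ) : ℂ) * ((δ / Fintype.card A : ℝ) : ℂ) = ((δ : ℝ) : ℂ) := by
    have h2 : (Fintype.card A : ℝ) * (δ / Fintype.card A) = δ := mul_div_cancel₀ δ hc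
    rw [← h2]
    push_cast
    rw [mul_div_cancel₀ _ (by exact_mod_cast hc)]
  rw [h1]

/-- S4 -/
theorem hA_sum [Nonempty A] (μ : X → Y → ℝ) {n : ℕ} (P : (Fin n → X) → (Fin n → A) → (H →L[ℂ] H))
    (C : Finset (Fin n)) (κx : C → X) (κa : C → A) (δ : ℝ) (i : Fin n) (s : Fin n → X)
    (t : Fin n → Y) (u : X) : ∑ a, hA μ P C κx κa δ i s t u a =
      ∑ x, ((kA μ i s t u x : ℝ) : ℂ) •
        (opE P C κx κa x + ((δ : ℝ) : ℂ) • (1 : H →L[ℂ] H)) :=
  S4_gen P C κx κa δ i fun x => ((kA μ i s t u x : ℝ) : ℂ)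

/-- S4 -/
theorem hB_sum [Nonempty B] (μ : X → Y → ℝ) {n : ℕ} (Q : (Fin n → Y) → (Fin n → B) → (H →L[ℂ] H))
    (C : Finset (Fin n)) (κy : C → Y) (κb : C → B) (δ : ℝ) (i : Fin n) (s : Fin n → X)
    (t : Fin n → Y) (v : Y) : ∑ b, hB μ Q C κy κb δ i s t v b =
      ∑ y, ((kB μ i s t v y : ℝ) : ℂ) •
        (opE Q C κy κb y + ((δ : ℝ) : ℂ) • (1 : H →L[ℂ] H)) :=
  S4_gen Q C κy κb δ i fun y => ((kB μ i s t v y : ℝ) : ℂ)

end S4

end Pool.Agent.H500R2.PR
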